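import Pool.Agent.H.MP_d7db32_ag.Eq.M.Shf2
import Pool.Agent.H.MP_d7db32_ag.Eq.S5

/-!
# MP_d7db32_ag, Eq/M/Cy1: matching of rows and columns; the constant weight

`eqm`: for a weight `ω` which is not constant no nonzero kernel vector has the weight `ω` (`Kb.span`, `wt`: its coefficients at the `v j` vanish, because
the weights `u j` are constant; take the components of `∑ ξ j v j` of constant weight), so by `blk_le` (S5; cast to `ℂ`, or copy the proof) there are at most as many columns as rows of weight `ω`;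
the same for the transposed matrix, so equally many. All constant weights of rows and columns are equal (`(2 k + 1) ω₀ = s`), so the numbers of rows and columns of
constant weight are equal too. So there is `π` with `w' (π a) = w a` for all `a` (bijections on all the fibres).
`sing`: `det L = c * Fv 0 = 0` (`Fv_smul` or directly; `1 ≤ 2 k + 1`), so there is a kernel vector `x ≠ 0` and `r ≠ 0`; take `v j`.
-/

set_option autoImplicit false

namespace PadDet.Eq

open Matrix

variable {k m r r' : ℕ} {c : ℂ} {L : Matrix (Fin m) (Fin m) ℂ}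
  {M : Matrix (Fin (2 * k + 1)) (Fin (2 * k + 1)) ℂ →ₗ[ℂ] Matrix (Fin m) (Fin m) ℂ}
  {w w' : Fin m → Fin (2 * k + 1) → ℤ} {s : ℤ} {v : Fin r → Fin m → ℂ}
  {u : Fin r → Fin (2 * k + 1) → ℤ} {v' : Fin r' → Fin m → ℂ}
  {u' : Fin r' → Fin (2 * k + 1) → ℤ}

private theorem cy1_blk {W : Type} (L : Matrix (Fin m) (Fin m) ℂ) (w w' : Fin m → W)
    (gL : ∀ b a, L b a ≠ 0 → w' b = w a) (ω : W)
    (h : ∀ x, L *ᵥ x = 0 → (∀ a, x a ≠ 0 → w a = ω) → x = 0) :
    Nat.card {a // w a = ω} ≤ Nat.card {b // w' b = ω} := by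
  classical
  by_contra hcon
  push Not at hcon
  let A : Matrix {b // w' b = ω} {a // w a = ω} ℂ := fun b a => L b a
  have h1 : LinearMap.ker A.mulVecLin ≠ ⊥ := by
    apply LinearMap.ker_ne_bot_of_finrank_lt
    simpa [Nat.card_eq_fintype_card] using hcon
  obtain ⟨z, hz, hz0⟩ := (Submodule.ne_bot_iff _).1 h1
  rw [LinearMap.mem_ker, Matrix.mulVecLin_apply] at hz
  let x : Fin m → ℂ := fun a => if ha : w a = ω then z ⟨a, ha⟩ else 0
  have hx : L *ᵥ x = 0 := by
    funext b
    show ∑ a, L b a * x a = 0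
    by_cases hb : w' b = ω
    · have h2 := congrFun hz ⟨b, hb⟩
      have h3 : ∑ a : {a // w a = ω}, L b a * z a = 0 := h2
      rw [← h3, ← Finset.sum_filter_add_sum_filter_not Finset.univ (fun a => w a = ω)]
      rw [Finset.sum_eq_zero (s := Finset.univ.filter fun a => ¬ w a = ω), add_zero]
      · rw [Finset.sum_subtype (Finset.univ.filter fun a => w a = ω) (p := fun a => w a = ω)
          (by simp)]
        refine Finset.sum_congr rfl (fun a _ => ?_)
        show L b a * (if ha : w a = ω then z ⟨a, ha⟩ else 0) = _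
        rw [dif_pos a.2]
      · intro a ha
        rw [Finset.mem_filter] at ha
        show L b a * (if ha : w a = ω then z ⟨a, ha⟩ else 0) = 0
        rw [dif_neg ha.2, mul_zero]
    · refine Finset.sum_eq_zero (fun a _ => ?_)
      show L b a * (if ha : w a = ω then z ⟨a, ha⟩ else 0) = 0
      by_cases hL : L b a = 0
      · rw [hL, zero_mul]
      · rw [dif_neg (fun h => hb ((gL b a hL).trans h)), mul_zero]
  have h4 := h x hx (by
    intro a ha
    by_contra hcon
    apply ha
    show (if ha : w a = ω then z ⟨a, ha⟩ else 0) = 0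
    rw [dif_neg hcon])
  apply hz0
  funext a
  have h5 := congrFun h4 a.1
  have h6 : (if ha : w a.1 = ω then z ⟨a.1, ha⟩ else 0) = 0 := h5
  rw [dif_pos a.2] at h6
  exact h6

private theorem cy1_fib {W : Type} [DecidableEq W] (f g : Fin m → W) (ω : W)
    (h : ∀ η, η ≠ ω → (Finset.univ.filter fun a => f a = η).card =
      (Finset.univ.filter fun a => g a = η).card) :
    (Finset.univ.filter fun a => f a = ω).card = (Finset.univ.filter fun a => g a = ω).card := by
  classical
  let T : Finset W := insert ω (Finset.univ.image f ∪ Finset.univ.image g)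
  have hf : (Finset.univ : Finset (Fin m)).card =
      ∑ η ∈ T, (Finset.univ.filter fun a => f a = η).card :=
    Finset.card_eq_sum_card_fiberwise fun a _ => Finset.mem_coe.2 (Finset.mem_insert_of_mem
      (Finset.mem_union_left _ (Finset.mem_image_of_mem _ (Finset.mem_univ a))))
  have hg : (Finset.univ : Finset (Fin m)).card =
      ∑ η ∈ T, (Finset.univ.filter fun a => g a = η).card :=
    Finset.card_eq_sum_card_fiberwise fun a _ => Finset.mem_coe.2 (Finset.mem_insert_of_mem
      (Finset.mem_union_right _ (Finset.mem_image_of_mem _ (Finset.mem_univ a))))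
  have hω : ω ∈ T := Finset.mem_insert_self _ _
  rw [← Finset.add_sum_erase T _ hω] at hf hg
  have he : ∑ η ∈ T.erase ω, (Finset.univ.filter fun a => f a = η).card =
      ∑ η ∈ T.erase ω, (Finset.univ.filter fun a => g a = η).card :=
    Finset.sum_congr rfl fun η hη => h η (Finset.ne_of_mem_erase hη)
  omega

private theorem cy1_ker {n m r : ℕ} {L : Matrix (Fin m) (Fin m) ℂ} {w : Fin m → Fin n → ℤ}
    {v : Fin r → Fin m → ℂ} {u : Fin r → Fin n → ℤ} (h : Kb m r L w v u)
    (hu : ∀ j i i', u j i = u j i') {ω : Fin n → ℤ} {i i' : Fin n} (hω : ω i ≠ ω i')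
    (x : Fin m → ℂ) (hx : L *ᵥ x = 0) (hw : ∀ a, x a ≠ 0 → w a = ω) : x = 0 := by
  by_contra hx0
  obtain ⟨a, ha⟩ := Function.ne_iff.1 hx0
  obtain ⟨ξ, hξ⟩ := h.span x hx
  have h1 : x a = ∑ j, ξ j * v j a := by
    rw [hξ, Finset.sum_apply]
    rfl
  have ha' : x a ≠ 0 := ha
  rw [h1] at ha'
  obtain ⟨j, -, hj⟩ := Finset.exists_ne_zero_of_sum_ne_zero ha'
  have h2 := h.wt j a (right_ne_zero_of_mul hj)
  have h3 := hw a ha
  apply hω
  rw [← h3, h2]
  exact hu j i i'

private theorem cy1_const {n : ℕ} {s : ℤ} {ω : Fin n → ℤ} (hc : ∀ i i', ω i = ω i')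
    (hs : ∑ l, ω l = s) (i : Fin n) : (n : ℤ) * ω i = s := by
  rw [← hs, Finset.sum_congr rfl fun l _ => hc l i, Finset.sum_const, Finset.card_univ,
    Fintype.card_fin, nsmul_eq_mul]

theorem eqm (h : Zu (2 * k + 1) m r r' c L M w w' s v u v' u')
    (hu : ∀ j i i', u j i = u j i') (hu' : ∀ j i i', u' j i = u' j i') :
    ∃ π : Equiv.Perm (Fin m), ∀ a, w' (π a) = w a := by
  classical
  have hnc : ∀ ω : Fin (2 * k + 1) → ℤ, (∃ i i', ω i ≠ ω i') →
      (Finset.univ.filter fun a => w a = ω).card =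
        (Finset.univ.filter fun b => w' b = ω).card := by
    rintro ω ⟨i, i', hi⟩
    have h1 : Nat.card {a // w a = ω} = Nat.card {b // w' b = ω} := by
      apply le_antisymm
      · exact cy1_blk L w w' h.gL ω fun x hx hw => cy1_ker h.kb hu hi x hx hw
      · exact cy1_blk Lᵀ w' w (fun b a hab => (h.gL a b hab).symm) ω
          fun x hx hw => cy1_ker h.kb' hu' hi x hx hw
    rwa [Nat.card_eq_fintype_card, Nat.card_eq_fintype_card, Fintype.card_subtype,
      Fintype.card_subtype] at h1
  have hne : ∀ ω : Fin (2 * k + 1) → ℤ, ∑ l, ω l ≠ s →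
      (Finset.univ.filter fun a => w a = ω).card =
        (Finset.univ.filter fun b => w' b = ω).card := by
    intro ω hω
    rw [Finset.filter_false_of_mem, Finset.filter_false_of_mem]
    · intro b _ hb
      exact hω (by rw [← hb]; exact h.sm' b)
    · intro a _ ha
      exact hω (by rw [← ha]; exact h.sm a)
  have hall : ∀ ω : Fin (2 * k + 1) → ℤ,
      (Finset.univ.filter fun a => w a = ω).card =
        (Finset.univ.filter fun b => w' b = ω).card := by
    intro ω
    by_cases h1 : ∃ i i', ω i ≠ ω i'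
    · exact hnc ω h1
    push Not at h1
    by_cases h2 : ∑ l, ω l = s
    · refine cy1_fib w w' ω fun η hη => ?_
      by_cases h3 : ∃ i i', η i ≠ η i'
      · exact hnc η h3
      push Not at h3
      refine hne η fun h4 => hη ?_
      funext i
      have h5 := cy1_const h1 h2 i
      have h6 := cy1_const h3 h4 i
      have h7 : ((2 * k + 1 : ℕ) : ℤ) ≠ 0 := by positivity
      exact mul_left_cancel₀ h7 (h6.trans h5.symm)
    · exact hne ω h2
  have he : ∀ ω : Fin (2 * k + 1) → ℤ, Nonempty ({a // w a = ω} ≃ {b // w' b = ω}) := by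
    intro ω
    refine ⟨Fintype.equivOfCardEq ?_⟩
    rw [Fintype.card_subtype, Fintype.card_subtype]
    exact hall ω
  refine ⟨Equiv.ofFiberEquiv fun ω => (he ω).some, fun a => ?_⟩
  exact Equiv.ofFiberEquiv_map _ a

theorem sing (h : Zu (2 * k + 1) m r r' c L M w w' s v u v' u')
    (hu : ∀ j i i', u j i = u j i') :
    ∃ (z : ℤ) (x : Fin m → ℂ), x ≠ 0 ∧ L *ᵥ x = 0 ∧ ∀ a, x a ≠ 0 → ∀ i, w a i = z := by
  classical
  have h1 : L.det = 0 := by
    have h2 := h.det 0
    rw [map_zero, add_zero, Fv_skew 0 (by simp), mul_zero] at h2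
    exact h2
  obtain ⟨x, hx0, hx⟩ := Matrix.exists_mulVec_eq_zero_iff.2 h1
  obtain ⟨ξ, hξ⟩ := h.kb.span x hx
  have h3 : ∃ j : Fin r, True := by
    by_contra hcon
    push Not at hcon
    apply hx0
    rw [hξ]
    exact Finset.sum_eq_zero fun j _ => (hcon j).elim
  obtain ⟨j, -⟩ := h3
  refine ⟨u j 0, v j, h.kb.ind.ne_zero j, h.kb.ker j, fun a ha i => ?_⟩
  rw [h.kb.wt j a ha]
  exact hu j i 0

end PadDet.Eq
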