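import Pool.Agent.H.MP_d7db32_ag.Eq.M.Bas2

/-!
# MP_d7db32_ag, Eq/M/Cy2: a term of the determinant which leaves the constant weight (compare ChnA)

`N_s = L + s M X`, `det N_s = s ^ n c F X` (`Fv_smul`), `n = 2 k + 1`, `F X ≠ 0`. An entry `b a` with `w' b = w a` is an entry of `L` (the entries of `M` change
the weight: `n (..) - 2` is not zero: `n ≥ 3`), an entry with `w' b ≠ w a` is `s` times an entry of `M X`. Let `Z` be the set of the columns `a` with `w a = z` (constant), `Z'` the rows. If for all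
permutations `ρ` with `∏ N_1 (ρ a) a ≠ 0` with exactly `n` indices with `w' (ρ a) ≠ w a` one had `w' (ρ a) = z` for all `a` in `Z`, then the coefficient of `s ^ n` in `det N_s` would be the one of the determinant
of the matrix `N'_s`, which has the entries of `N_s` with (`b` in `Z'` iff `a` in `Z`) and `0` elsewhere (by `hcard` a permutation which maps `Z` to `Z'` maps the complement to the complement). But `N'_s x = 0`
(rows in `Z'`: entries of `L` only, `L x = 0`), so `det N'_s = 0`; contradiction. So some such `ρ` has an `a₀` in `Z` with `w' (ρ a₀) ≠ z`. Put `v a = 0` if `w' (ρ a) = w a`, and otherwise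
`v a = single i 1 + single j 1` for `i j` with `M (single i j 1) (ρ a) a ≠ 0` (exists because the entry of `M X` is not zero; `lin_single`).
The number of the `a` with `v a ≠ 0` is `n`.
-/

set_option autoImplicit false

namespace PadDet.Eq

open Matrix

variable {k m : ℕ} {c : ℂ} {L : Matrix (Fin m) (Fin m) ℂ}
  {M : Matrix (Fin (2 * k + 1)) (Fin (2 * k + 1)) ℂ →ₗ[ℂ] Matrix (Fin m) (Fin m) ℂ}
  {w w' : Fin m → Fin (2 * k + 1) → ℤ} {s : ℤ}

private theorem cy2_Fv_smul {k : ℕ} (s : ℂ)
    (X : Matrix (Fin (2 * k + 1)) (Fin (2 * k + 1)) ℂ) :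
    Fv (s • X) = s ^ (2 * k + 1) * Fv X := by
  unfold Fv
  rw [Matrix.transpose_smul, ← smul_sub, ← smul_add, Matrix.adjugate_smul, Matrix.smul_mul,
    Matrix.mul_smul, Matrix.trace_smul, Matrix.trace_smul, Fintype.card_fin, smul_eq_mul,
    smul_eq_mul, Nat.add_sub_cancel]
  ring

private theorem cy2_M {n m : ℕ} {N : Matrix (Fin n) (Fin n) ℂ →ₗ[ℂ] Matrix (Fin m) (Fin m) ℂ}
    (X : Matrix (Fin n) (Fin n) ℂ) (b a : Fin m) :
    N X b a = ∑ i, ∑ j, X i j * N (Matrix.single i j 1) b a := by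
  conv_lhs => rw [Matrix.matrix_eq_sum_single X]
  rw [map_sum, Matrix.sum_apply]
  refine Finset.sum_congr rfl fun i _ => ?_
  rw [map_sum, Matrix.sum_apply]
  refine Finset.sum_congr rfl fun j _ => ?_
  have : Matrix.single i j (X i j) = X i j • Matrix.single i j (1 : ℂ) := by
    rw [Matrix.smul_single, smul_eq_mul, mul_one]
  rw [this, map_smul, Matrix.smul_apply, smul_eq_mul]

/-- Coefficient of `s ^ N` of a determinant whose entries are `s ^ e` times constants. -/
private theorem cy2_coeff {m N : ℕ} (A : ℂ → Matrix (Fin m) (Fin m) ℂ) (e : Fin m → Fin m → ℕ)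
    (hA : ∀ s b a, A s b a = s ^ e b a * A 1 b a) (d : ℂ) (hd : ∀ s, (A s).det = d * s ^ N) :
    ∑ ρ : Equiv.Perm (Fin m), (if ∑ a, e (ρ a) a = N then
      ((Equiv.Perm.sign ρ : ℤ) : ℂ) * ∏ a, A 1 (ρ a) a else 0) = d := by
  have hdet : ∀ s : ℂ, ∑ ρ : Equiv.Perm (Fin m), (((Equiv.Perm.sign ρ : ℤ) : ℂ) *
      ∏ a, A 1 (ρ a) a) * s ^ (∑ a, e (ρ a) a) = d * s ^ N := by
    intro s
    rw [← hd s, Matrix.det_apply']
    refine Finset.sum_congr rfl fun ρ _ => ?_
    rw [Finset.prod_congr rfl fun a _ => hA s (ρ a) a, Finset.prod_mul_distrib,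
      Finset.prod_pow_eq_pow_sum]
    ring
  have hpol : ∑ ρ : Equiv.Perm (Fin m), Polynomial.C (((Equiv.Perm.sign ρ : ℤ) : ℂ) *
      ∏ a, A 1 (ρ a) a) * Polynomial.X ^ (∑ a, e (ρ a) a) =
      Polynomial.C d * Polynomial.X ^ N := by
    apply Polynomial.funext
    intro s
    rw [Polynomial.eval_finsetSum]
    simp only [Polynomial.eval_mul, Polynomial.eval_C, Polynomial.eval_pow, Polynomial.eval_X]
    exact hdet s
  have hco := congrArg (fun p => Polynomial.coeff p N) hpol
  simp only [Polynomial.finsetSum_coeff, Polynomial.coeff_C_mul, Polynomial.coeff_X_pow] at hco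
  rw [if_pos trivial, mul_one] at hco
  rw [← hco]
  refine Finset.sum_congr rfl fun ρ _ => ?_
  by_cases h : ∑ a, e (ρ a) a = N
  · rw [if_pos h, if_pos h.symm, mul_one]
  · rw [if_neg h, if_neg (fun h' => h h'.symm), mul_zero]

theorem cy2 (hk : 1 ≤ k) (h : Zt (2 * k + 1) m c L M w w' s) (π : Equiv.Perm (Fin m))
    (hcard : ∀ a, w' (π a) = w a) {z : ℤ} {x : Fin m → ℂ} (hx0 : x ≠ 0) (hx : L *ᵥ x = 0)
    (hxz : ∀ a, x a ≠ 0 → ∀ i, w a i = z) :
    ∃ (ρ : Equiv.Perm (Fin m)) (v : Fin m → Fin (2 * k + 1) → ℕ) (a₀ : Fin m),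
      (∀ a, v a = 0 ∨ ∃ i j, v a = Pi.single i 1 + Pi.single j 1) ∧
      (∀ a i, w' (ρ a) i = w a i + (2 * k + 1 : ℕ) * v a i - (if v a = 0 then 0 else 2)) ∧
      (Finset.univ.filter fun a => v a ≠ 0).card = 2 * k + 1 ∧
      (∀ i, w a₀ i = z) ∧ v a₀ ≠ 0 := by
  classical
  obtain ⟨X, hX⟩ := exists_ne k
  -- the two kinds of entries
  have hN0 : ∀ b a, w' b = w a → ∀ i j, M (Matrix.single i j 1) b a = 0 := by
    intro b a hba i j
    by_contra hne
    have h1 := h.gE b a i j hne i
    rw [hba, if_pos rfl] at h1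
    push_cast at h1
    split_ifs at h1 <;> omega
  have hNX0 : ∀ b a, w' b = w a → M X b a = 0 := by
    intro b a hba
    rw [cy2_M]
    refine Finset.sum_eq_zero fun i _ => Finset.sum_eq_zero fun j _ => ?_
    rw [hN0 b a hba, mul_zero]
  have hL0 : ∀ b a, w' b ≠ w a → L b a = 0 := by
    intro b a hba
    by_contra hne
    exact hba (h.gL b a hne)
  have hent : ∀ (s : ℂ) b a, (L + M (s • X)) b a =
      s ^ (if w' b ≠ w a then 1 else 0) * (L + M ((1 : ℂ) • X)) b a := by
    intro s b a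
    rw [one_smul, map_smul, Matrix.add_apply, Matrix.add_apply, Matrix.smul_apply, smul_eq_mul]
    by_cases hba : w' b = w a
    · simp [hba, hNX0 b a hba]
    · simp [hba, hL0 b a hba]
  -- constant weights
  let ζ : Fin (2 * k + 1) → ℤ := fun _ => z
  let B : ℂ → Matrix (Fin m) (Fin m) ℂ := fun s => Matrix.of fun b a =>
    if (w' b = ζ ↔ w a = ζ) then (L + M (s • X)) b a else 0
  have hB : ∀ s b a, B s b a = s ^ (if w' b ≠ w a then 1 else 0) * B 1 b a := by
    intro s b a
    show (if (w' b = ζ ↔ w a = ζ) then (L + M (s • X)) b a else 0) = _ *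
      (if (w' b = ζ ↔ w a = ζ) then (L + M ((1 : ℂ) • X)) b a else 0)
    by_cases hba : (w' b = ζ ↔ w a = ζ)
    · rw [if_pos hba, if_pos hba]
      exact hent s b a
    · rw [if_neg hba, if_neg hba, mul_zero]
  have hBdet : ∀ s, (B s).det = 0 := by
    intro s
    refine Matrix.exists_mulVec_eq_zero_iff.1 ⟨x, hx0, ?_⟩
    funext b
    show ∑ a, B s b a * x a = 0
    by_cases hb : w' b = ζ
    · have h0 := congrFun hx b
      have h1 : ∑ a, L b a * x a = 0 := h0
      rw [← h1]
      refine Finset.sum_congr rfl fun a _ => ?_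
      by_cases hxa : x a = 0
      · rw [hxa, mul_zero, mul_zero]
      · have ha : w a = ζ := funext fun i => hxz a hxa i
        have : B s b a = L b a := by
          show (if (w' b = ζ ↔ w a = ζ) then (L + M (s • X)) b a else 0) = L b a
          rw [if_pos ⟨fun _ => ha, fun _ => hb⟩, map_smul, Matrix.add_apply, Matrix.smul_apply,
            hNX0 b a (hb.trans ha.symm), smul_zero, add_zero]
        rw [this]
    · refine Finset.sum_eq_zero fun a _ => ?_
      by_cases hxa : x a = 0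
      · rw [hxa, mul_zero]
      · have ha : w a = ζ := funext fun i => hxz a hxa i
        have : B s b a = 0 := by
          show (if (w' b = ζ ↔ w a = ζ) then (L + M (s • X)) b a else 0) = 0
          rw [if_neg (fun h' => hb (h'.2 ha))]
        rw [this, zero_mul]
  have e1 := cy2_coeff (N := 2 * k + 1) (fun s => L + M (s • X)) _ hent (c * Fv X) (by
    intro s
    rw [h.det, cy2_Fv_smul]
    ring)
  have e2 := cy2_coeff (N := 2 * k + 1) B _ hB 0 (by
    intro s
    rw [hBdet, zero_mul])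
  have hne0 : c * Fv X ≠ 0 := mul_ne_zero h.c0 hX
  have hne := (congrArg₂ (fun u v : ℂ => u - v) e1 e2).trans (sub_zero (c * Fv X))
  rw [← Finset.sum_sub_distrib] at hne
  rw [← hne] at hne0
  obtain ⟨ρ, -, hρ⟩ := Finset.exists_ne_zero_of_sum_ne_zero hne0
  have hcnt : ∑ a, (if w' (ρ a) ≠ w a then 1 else 0) = 2 * k + 1 := by
    by_contra hcon
    apply hρ
    rw [if_neg hcon, if_neg hcon, sub_zero]
  rw [if_pos hcnt, if_pos hcnt, ← mul_sub] at hρ
  have hρ2 := right_ne_zero_of_mul hρ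
  have hbad : ∃ a, ¬ (w' (ρ a) = ζ ↔ w a = ζ) := by
    by_contra hcon
    push Not at hcon
    apply hρ2
    rw [sub_eq_zero]
    refine Finset.prod_congr rfl fun a _ => ?_
    show _ = (if (w' (ρ a) = ζ ↔ w a = ζ) then (L + M ((1 : ℂ) • X)) (ρ a) a else 0)
    rw [if_pos (hcon a)]
  have hprod : ∏ a, (L + M X) (ρ a) a ≠ 0 := by
    obtain ⟨a, ha⟩ := hbad
    have h0 : ∏ a, B 1 (ρ a) a = 0 := by
      refine Finset.prod_eq_zero (Finset.mem_univ a) ?_
      show (if (w' (ρ a) = ζ ↔ w a = ζ) then (L + M ((1 : ℂ) • X)) (ρ a) a else 0) = 0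
      rw [if_neg ha]
    rw [h0, sub_zero] at hρ2
    simpa only [one_smul] using hρ2
  have hent0 : ∀ a, (L + M X) (ρ a) a ≠ 0 :=
    fun a => Finset.prod_ne_zero_iff.1 hprod a (Finset.mem_univ a)
  -- a column of constant weight
  have hcol : ∃ a, w a = ζ ∧ w' (ρ a) ≠ ζ := by
    by_contra hcon
    push Not at hcon
    obtain ⟨a, ha⟩ := hbad
    have h1 : (Finset.univ.filter fun a => w a = ζ).image ρ ⊆
        Finset.univ.filter fun b => w' b = ζ := by
      intro b hb
      rw [Finset.mem_image] at hb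
      obtain ⟨a', ha', rfl⟩ := hb
      rw [Finset.mem_filter] at ha' ⊢
      exact ⟨Finset.mem_univ _, hcon a' ha'.2⟩
    have h2 : (Finset.univ.filter fun b => w' b = ζ) =
        (Finset.univ.filter fun a => w a = ζ).image π := by
      ext b
      rw [Finset.mem_filter, Finset.mem_image]
      constructor
      · rintro ⟨-, hb⟩
        refine ⟨π.symm b, ?_, Equiv.apply_symm_apply π b⟩
        rw [Finset.mem_filter]
        refine ⟨Finset.mem_univ _, ?_⟩
        rw [← hcard, Equiv.apply_symm_apply]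
        exact hb
      · rintro ⟨a', ha', rfl⟩
        rw [Finset.mem_filter] at ha'
        exact ⟨Finset.mem_univ _, (hcard a').trans ha'.2⟩
    have h3 := Finset.eq_of_subset_of_card_le h1 (by
      rw [h2, Finset.card_image_of_injective _ π.injective,
        Finset.card_image_of_injective _ ρ.injective])
    by_cases hwa : w a = ζ
    · exact ha ⟨fun _ => hwa, fun _ => hcon a hwa⟩
    · by_cases hwb : w' (ρ a) = ζ
      · have h4 : ρ a ∈ (Finset.univ.filter fun a => w a = ζ).image ρ := by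
          rw [h3, Finset.mem_filter]
          exact ⟨Finset.mem_univ _, hwb⟩
        rw [Finset.mem_image] at h4
        obtain ⟨a', ha', hh⟩ := h4
        rw [Finset.mem_filter] at ha'
        rw [ρ.injective hh] at ha'
        exact hwa ha'.2
      · exact ha ⟨fun h' => absurd h' hwb, fun h' => absurd h' hwa⟩
  obtain ⟨a₀, ha₀, hb₀⟩ := hcol
  have hex : ∀ a, ∃ u : Fin (2 * k + 1) → ℕ, (u = 0 ∨ ∃ i j, u = Pi.single i 1 + Pi.single j 1) ∧
      (∀ i, w' (ρ a) i = w a i + (2 * k + 1 : ℕ) * u i - (if u = 0 then 0 else 2)) ∧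
      (u ≠ 0 ↔ w' (ρ a) ≠ w a) := by
    intro a
    by_cases hba : w' (ρ a) = w a
    · refine ⟨0, Or.inl rfl, fun i => ?_, ?_⟩
      · rw [hba]
        simp
      · simp [hba]
    · have h1 : M X (ρ a) a ≠ 0 := by
        have := hent0 a
        rwa [Matrix.add_apply, hL0 _ _ hba, zero_add] at this
      rw [cy2_M] at h1
      obtain ⟨i, -, hi⟩ := Finset.exists_ne_zero_of_sum_ne_zero h1
      obtain ⟨j, -, hj⟩ := Finset.exists_ne_zero_of_sum_ne_zero hi
      have h2 := h.gE _ _ i j (right_ne_zero_of_mul hj)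
      have hu : (Pi.single i 1 + Pi.single j 1 : Fin (2 * k + 1) → ℕ) ≠ 0 := by
        intro h0
        have := congrFun h0 i
        simp at this
      refine ⟨Pi.single i 1 + Pi.single j 1, Or.inr ⟨i, j, rfl⟩, fun l => ?_, ?_⟩
      · rw [h2, if_neg hu]
        simp only [Pi.add_apply, Pi.single_apply]
        push_cast
        rfl
      · exact ⟨fun _ => hba, fun _ => hu⟩
  choose v hv1 hv2 hv3 using hex
  refine ⟨ρ, v, a₀, hv1, hv2, ?_, fun i => congrFun ha₀ i, ?_⟩
  · refine Eq.trans ?_ hcnt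
    rw [Finset.card_filter]
    refine Finset.sum_congr rfl fun a _ => ?_
    exact if_congr (hv3 a) rfl rfl
  · rw [hv3]
    intro h'
    exact hb₀ (h'.trans ha₀)

end PadDet.Eq
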