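import Pool.Agent.H.MP_d7db32_ag.Eq.M.Bas2

/-!
# MP_d7db32_ag, Eq/M/Shf2: the shift (compare L/Shf)

`shf2`: let `T i = ∑ a, w a i`; `T i = T (σ i) + m δ_σ i`; `σ = swap i j`: `m` divides `T i - T j`; `μ i = (T i - T 0) / m`,
`δ_σ i = μ i - μ (σ i)`; new sum `s₀ - ∑ μ`. `zu_tr`: transposed expression with the weights `- w'`, `- w` and the sum `- s`.
-/

set_option autoImplicit false

namespace PadDet.Eq

open Matrix

/-- Stable under rearrangements. -/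
def Stb {n r : ℕ} (u : Fin r → Fin n → ℤ) : Prop :=
  ∀ σ : Equiv.Perm (Fin n), ∃ π : Equiv.Perm (Fin r), ∀ j i, u (π j) i = u j (σ i)

/-- Everything together. -/
structure Zu (n m r r' : ℕ) (c : ℂ) (L : Matrix (Fin m) (Fin m) ℂ)
    (M : Matrix (Fin n) (Fin n) ℂ →ₗ[ℂ] Matrix (Fin m) (Fin m) ℂ)
    (w w' : Fin m → Fin n → ℤ) (s : ℤ) (v : Fin r → Fin m → ℂ) (u : Fin r → Fin n → ℤ)
    (v' : Fin r' → Fin m → ℂ) (u' : Fin r' → Fin n → ℤ) : Prop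
    extends Zt n m c L M w w' s where
  kb : Kb m r L w v u
  kb' : Kb m r' Lᵀ w' v' u'
  rk : m = L.rank + r
  rk' : m = L.rank + r'
  su : Stb u
  su' : Stb u'

theorem shf2 {k m r r' : ℕ} (hm : m ≠ 0) {c : ℂ} {L : Matrix (Fin m) (Fin m) ℂ}
    {M : Matrix (Fin (2 * k + 1)) (Fin (2 * k + 1)) ℂ →ₗ[ℂ] Matrix (Fin m) (Fin m) ℂ}
    {w w' : Fin m → Fin (2 * k + 1) → ℤ} {s₀ : ℤ} (hG : Zt (2 * k + 1) m c L M w w' s₀)
    {v : Fin r → Fin m → ℂ} {u : Fin r → Fin (2 * k + 1) → ℤ} (hK : Kb m r L w v u)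
    {v' : Fin r' → Fin m → ℂ} {u' : Fin r' → Fin (2 * k + 1) → ℤ} (hK' : Kb m r' Lᵀ w' v' u')
    (rk : m = L.rank + r) (rk' : m = L.rank + r')
    (h : ∀ σ : Equiv.Perm (Fin (2 * k + 1)), ∃ δ : Fin (2 * k + 1) → ℤ,
      (∃ π : Equiv.Perm (Fin m), ∀ a i, w (π a) i = w a (σ i) + δ i) ∧
      (∃ π : Equiv.Perm (Fin r), ∀ j i, u (π j) i = u j (σ i) + δ i) ∧
      ∃ π : Equiv.Perm (Fin r'), ∀ j i, u' (π j) i = u' j (σ i) + δ i) :
    ∃ (μ : Fin (2 * k + 1) → ℤ) (s : ℤ),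
      Zu (2 * k + 1) m r r' c L M (fun a i => w a i - μ i) (fun b i => w' b i - μ i) s
        v (fun j i => u j i - μ i) v' (fun j i => u' j i - μ i) ∧
      Stb (fun a i => w a i - μ i) := by
  have hm0 : (m : ℤ) ≠ 0 := by exact_mod_cast hm
  have key : ∀ (σ : Equiv.Perm (Fin (2 * k + 1))) (δ : Fin (2 * k + 1) → ℤ)
      (π : Equiv.Perm (Fin m)), (∀ a i, w (π a) i = w a (σ i) + δ i) →
      ∀ i, ∑ a, w a i = ∑ a, w a (σ i) + m * δ i := by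
    intro σ δ π hπ i
    rw [← Equiv.sum_comp π (fun a => w a i)]
    simp only [hπ]
    rw [Finset.sum_add_distrib, Finset.sum_const, Finset.card_univ, Fintype.card_fin,
      nsmul_eq_mul]
  have hμ : ∀ i, ∃ z : ℤ, ∑ a, w a i = ∑ a, w a 0 + m * z := by
    intro i
    obtain ⟨δ, ⟨π, hπ⟩, -⟩ := h (Equiv.swap i 0)
    refine ⟨δ i, ?_⟩
    have h1 := key _ δ π hπ i
    rwa [Equiv.swap_apply_left] at h1
  choose μ hμ using hμ
  have hδ : ∀ (σ : Equiv.Perm (Fin (2 * k + 1))) (δ : Fin (2 * k + 1) → ℤ)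
      (π : Equiv.Perm (Fin m)), (∀ a i, w (π a) i = w a (σ i) + δ i) →
      ∀ i, δ i = μ i - μ (σ i) := by
    intro σ δ π hπ i
    have h1 := key σ δ π hπ i
    rw [hμ i, hμ (σ i)] at h1
    have h2 : (m : ℤ) * (δ i) = m * (μ i - μ (σ i)) := by linarith
    exact mul_left_cancel₀ hm0 h2
  refine ⟨μ, s₀ - ∑ i, μ i, ⟨⟨hG.c0, hG.det, ?_, ?_, ?_, ?_⟩, ?_, ?_, rk, rk', ?_, ?_⟩, ?_⟩
  · intro b a hb
    funext i
    show w' b i - μ i = w a i - μ i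
    rw [hG.gL b a hb]
  · intro b a i j hb l
    have h1 := hG.gE b a i j hb l
    show w' b l - μ l = w a l - μ l + _ - 2
    rw [h1]
    ring
  · intro a
    show ∑ l, (w a l - μ l) = _
    rw [Finset.sum_sub_distrib, hG.sm a]
  · intro b
    show ∑ l, (w' b l - μ l) = _
    rw [Finset.sum_sub_distrib, hG.sm' b]
  · refine ⟨hK.ind, hK.ker, ?_, hK.span⟩
    intro j a ha
    funext i
    show w a i - μ i = u j i - μ i
    rw [hK.wt j a ha]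
  · refine ⟨hK'.ind, hK'.ker, ?_, hK'.span⟩
    intro j a ha
    funext i
    show w' a i - μ i = u' j i - μ i
    rw [hK'.wt j a ha]
  · intro σ
    obtain ⟨δ, ⟨π, hπ⟩, ⟨π₁, hπ₁⟩, -⟩ := h σ
    refine ⟨π₁, fun j i => ?_⟩
    show u (π₁ j) i - μ i = u j (σ i) - μ (σ i)
    rw [hπ₁ j i, hδ σ δ π hπ i]
    ring
  · intro σ
    obtain ⟨δ, ⟨π, hπ⟩, -, ⟨π₁, hπ₁⟩⟩ := h σ
    refine ⟨π₁, fun j i => ?_⟩
    show u' (π₁ j) i - μ i = u' j (σ i) - μ (σ i)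
    rw [hπ₁ j i, hδ σ δ π hπ i]
    ring
  · intro σ
    obtain ⟨δ, ⟨π, hπ⟩, -, -⟩ := h σ
    refine ⟨π, fun a i => ?_⟩
    show w (π a) i - μ i = w a (σ i) - μ (σ i)
    rw [hπ a i, hδ σ δ π hπ i]
    ring

theorem zu_tr {n m r r' : ℕ} {c : ℂ} {L : Matrix (Fin m) (Fin m) ℂ}
    {M : Matrix (Fin n) (Fin n) ℂ →ₗ[ℂ] Matrix (Fin m) (Fin m) ℂ}
    {w w' : Fin m → Fin n → ℤ} {s : ℤ} {v : Fin r → Fin m → ℂ} {u : Fin r → Fin n → ℤ}
    {v' : Fin r' → Fin m → ℂ} {u' : Fin r' → Fin n → ℤ} (h : Zu n m r r' c L M w w' s v u v' u') :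
    Zu n m r' r c Lᵀ ((Matrix.transposeLinearEquiv (Fin m) (Fin m) ℂ ℂ).toLinearMap ∘ₗ M)
      (fun b i => - w' b i) (fun a i => - w a i) (-s) v' (fun j i => - u' j i)
      v (fun j i => - u j i) := by
  refine ⟨⟨h.c0, ?_, ?_, ?_, ?_, ?_⟩, ?_, ?_, ?_, ?_, ?_, ?_⟩
  · intro X
    rw [← h.det X, ← Matrix.det_transpose (L + M X), Matrix.transpose_add]
    rfl
  · intro b a hb
    have h1 := h.gL a b hb
    funext i
    show - w b i = - w' a i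
    rw [h1]
  · intro b a i j hb l
    have h1 := h.gE a b i j hb l
    show - w b l = - w' a l + _ - 2
    rw [h1]
    ring
  · intro a
    show ∑ l, (- w' a l) = _
    rw [Finset.sum_neg_distrib, h.sm' a]
  · intro b
    show ∑ l, (- w b l) = _
    rw [Finset.sum_neg_distrib, h.sm b]
  · refine ⟨h.kb'.ind, h.kb'.ker, ?_, h.kb'.span⟩
    intro j a ha
    funext i
    show - w' a i = - u' j i
    rw [h.kb'.wt j a ha]
  · rw [Matrix.transpose_transpose]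
    refine ⟨h.kb.ind, h.kb.ker, ?_, h.kb.span⟩
    intro j a ha
    funext i
    show - w a i = - u j i
    rw [h.kb.wt j a ha]
  · rw [Matrix.rank_transpose]
    exact h.rk'
  · rw [Matrix.rank_transpose]
    exact h.rk
  · intro σ
    obtain ⟨π, hπ⟩ := h.su' σ
    refine ⟨π, fun j i => ?_⟩
    show - u' (π j) i = - u' j (σ i)
    rw [hπ]
  · intro σ
    obtain ⟨π, hπ⟩ := h.su σ
    refine ⟨π, fun j i => ?_⟩
    show - u (π j) i = - u j (σ i)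
    rw [hπ]

end PadDet.Eq
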