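import Pool.Agent.H.MP_d7db32_ag.Eq.Comb
import Pool.Agent.H.MP_d7db32_ag.Eq.M.Shf2

/-!
# MP_d7db32_ag, Eq/M/Cy3: the cycle and the bound (compare ChnB, CstZ)

`n = 2 k + 1`. `P` = the period of `a₀` under `θ`. Let `α q i = ∑ over q' < q of v (θ ^ q' a₀) i`, `K q` = number of `q' < q` with `v (θ ^ q' a₀) ≠ 0`; then `∑ i, α q i = 2 K q`
(`v = 0` or sum `2`) and `w (θ ^ q a₀) i = z + n α q i - 2 K q`. At `q = P`: `n α P i = 2 K P` for all `i`; `K P ≥ 1`, `K P ≤ n` (`hc`; the elements `θ ^ q' a₀` are different), `n` odd, so `n` divides `K P`,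
`K P = n` and `α P i = 2`. Let `p` be the first `q` with `α q i = 2` for all `i`; `p ≤ P`. `comb` with
`A` = the `f : Fin n → ℕ` with values in `{0, 1, 2}`, even sum, not constant `2`, such that some `a` has `w a i = z + n f i - ∑ f` for all `i`: a finite set (filter of `Fintype.piFinset`),
stable (`st`), contains `α q` for `q < p`. `card A ≤ m`: `f ↦ a` is injective: `n f i - ∑ f = n f' i - ∑ f'` for all `i` gives `f - f'` constant `d`, `|d| ≤ 2`; `d = ± 1` contradicts the parity of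
the sums (`n` odd), `d = ± 2` means that one of them is constant `2`.
-/

set_option autoImplicit false

namespace PadDet.Eq

/-- The sum of the entries of `v` is `0` or `2`. -/
private theorem Cy3_sum {n : ℕ} (v : Fin n → ℕ)
    (hv : v = 0 ∨ ∃ i j, v = Pi.single i 1 + Pi.single j 1) :
    ∑ i, v i = 2 * (if v ≠ 0 then 1 else 0) := by
  rcases hv with h | ⟨i, j, h⟩
  · simp [h]
  · have hne : v ≠ 0 := by
      intro h0
      have h1 := congrFun h0 i
      rw [h] at h1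
      simp at h1
    rw [if_pos hne, h]
    simp [Finset.sum_add_distrib]

/-- The weights along the cycle. -/
private theorem Cy3_w {k m : ℕ} {w : Fin m → Fin (2 * k + 1) → ℤ} (θ : Equiv.Perm (Fin m))
    (v : Fin m → Fin (2 * k + 1) → ℕ) {a₀ : Fin m} {z : ℤ}
    (hθ : ∀ a i, w (θ a) i = w a i + (2 * k + 1 : ℕ) * v a i - (if v a = 0 then 0 else 2))
    (h0 : ∀ i, w a₀ i = z) (q : ℕ) (i : Fin (2 * k + 1)) :
    w ((θ ^ q) a₀) i = z + (2 * k + 1 : ℕ) * ((∑ r ∈ Finset.range q, v ((θ ^ r) a₀) i : ℕ) : ℤ)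
      - 2 * ((∑ r ∈ Finset.range q, (if v ((θ ^ r) a₀) ≠ 0 then 1 else 0) : ℕ) : ℤ) := by
  induction q with
  | zero => simp [h0]
  | succ q ih =>
    rw [pow_succ', Equiv.Perm.mul_apply, hθ, ih, Finset.sum_range_succ, Finset.sum_range_succ]
    by_cases h : v ((θ ^ q) a₀) = 0
    · rw [if_pos h, if_neg (not_not.2 h), h]
      push_cast
      simp
    · rw [if_neg h, if_pos h]
      push_cast
      ring

/-- The number of nonzero `v` along one period. -/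
private theorem Cy3_K {m n N : ℕ} (θ : Equiv.Perm (Fin m)) (v : Fin m → Fin n → ℕ)
    (hc : (Finset.univ.filter fun a => v a ≠ 0).card = N) (a₀ : Fin m) :
    ∑ r ∈ Finset.range (Function.minimalPeriod θ a₀), (if v ((θ ^ r) a₀) ≠ 0 then 1 else 0) ≤ N := by
  have hinj : Set.InjOn (fun s : ℕ => (θ ^ s) a₀)
      (Finset.range (Function.minimalPeriod θ a₀) : Set ℕ) := by
    intro s hs t ht hst
    have h1 : s < Function.minimalPeriod θ a₀ := by simpa using hs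
    have h2 : t < Function.minimalPeriod θ a₀ := by simpa using ht
    refine Function.iterate_injOn_Iio_minimalPeriod (f := θ) (x := a₀)
      (Set.mem_Iio.2 (by omega)) (Set.mem_Iio.2 (by omega)) ?_
    show (θ : Fin m → Fin m)^[s] a₀ = (θ : Fin m → Fin m)^[t] a₀
    rw [Equiv.Perm.iterate_eq_pow, Equiv.Perm.iterate_eq_pow]
    exact hst
  have h1 := Finset.sum_image (f := fun b => if v b ≠ 0 then 1 else 0) hinj
  calc ∑ r ∈ Finset.range (Function.minimalPeriod θ a₀), (if v ((θ ^ r) a₀) ≠ 0 then 1 else 0)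
      = ∑ b ∈ (Finset.range (Function.minimalPeriod θ a₀)).image (fun s : ℕ => (θ ^ s) a₀),
          (if v b ≠ 0 then 1 else 0) := h1.symm
    _ ≤ ∑ b, (if v b ≠ 0 then 1 else 0) := Finset.sum_le_sum_of_subset (Finset.subset_univ _)
    _ = N := by rw [← Finset.card_filter, hc]

/-- Two functions with the same weight are equal. -/
private theorem Cy3_inj {k : ℕ} (f g : Fin (2 * k + 1) → ℕ) (hf : ∀ i, f i ≤ 2) (hg : ∀ i, g i ≤ 2)
    (ef : Even (∑ i, f i)) (eg : Even (∑ i, g i)) (nf : ¬ ∀ i, f i = 2) (ng : ¬ ∀ i, g i = 2)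
    (h : ∀ i, (2 * k + 1 : ℕ) * (f i : ℤ) - ((∑ l, f l : ℕ) : ℤ) =
      (2 * k + 1 : ℕ) * (g i : ℤ) - ((∑ l, g l : ℕ) : ℤ)) : f = g := by
  obtain ⟨a, ha⟩ := ef
  obtain ⟨b, hb⟩ := eg
  have h1 : ∀ i, ((2 * k + 1 : ℕ) : ℤ) * ((f i : ℤ) - g i) = 2 * ((a : ℤ) - b) := by
    intro i
    have h2 := h i
    rw [ha, hb] at h2
    push_cast at h2 ⊢
    linarith
  have hn : ((2 * k + 1 : ℕ) : ℤ) ≠ 0 := by positivity
  have h2 : ∀ i, (f i : ℤ) - g i = (f 0 : ℤ) - g 0 := by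
    intro i
    exact mul_left_cancel₀ hn ((h1 i).trans (h1 0).symm)
  have h3 : (2 : ℤ) ∣ (f 0 : ℤ) - g 0 := by
    have h4 : (2 : ℤ) ∣ ((2 * k + 1 : ℕ) : ℤ) * ((f 0 : ℤ) - g 0) := ⟨_, h1 0⟩
    have h5 : IsCoprime (2 : ℤ) ((2 * k + 1 : ℕ) : ℤ) := by
      refine ⟨-(k : ℤ), 1, ?_⟩
      push_cast
      ring
    exact h5.dvd_of_dvd_mul_left h4
  obtain ⟨c, hcc⟩ := h3
  have f0 := hf 0
  have g0 := hg 0
  have hd : (f 0 : ℤ) - g 0 = 2 ∨ (f 0 : ℤ) - g 0 = 0 ∨ (f 0 : ℤ) - g 0 = -2 := by omega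
  rcases hd with hd | hd | hd
  · exfalso
    apply nf
    intro i
    have h4 := h2 i
    have h5 := hf i
    omega
  · funext i
    have h4 := h2 i
    omega
  · exfalso
    apply ng
    intro i
    have h4 := h2 i
    have h5 := hg i
    omega

theorem cy3 {k m : ℕ} {w : Fin m → Fin (2 * k + 1) → ℤ} (st : Stb w) (θ : Equiv.Perm (Fin m))
    (v : Fin m → Fin (2 * k + 1) → ℕ) {a₀ : Fin m} {z : ℤ}
    (hv : ∀ a, v a = 0 ∨ ∃ i j, v a = Pi.single i 1 + Pi.single j 1)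
    (hθ : ∀ a i, w (θ a) i = w a i + (2 * k + 1 : ℕ) * v a i - (if v a = 0 then 0 else 2))
    (hc : (Finset.univ.filter fun a => v a ≠ 0).card = 2 * k + 1) (h0 : ∀ i, w a₀ i = z)
    (hv0 : v a₀ ≠ 0) : 2 ^ (2 * k + 1) - 1 ≤ m := by
  classical
  obtain ⟨α, hα⟩ : ∃ α : ℕ → Fin (2 * k + 1) → ℕ,
      α = fun s i => ∑ r ∈ Finset.range s, v ((θ ^ r) a₀) i := ⟨_, rfl⟩
  have hαe : ∀ s i, α s i = ∑ r ∈ Finset.range s, v ((θ ^ r) a₀) i := fun s i => by rw [hα]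
  have hα1 : ∀ s, α (s + 1) = α s + v ((θ ^ s) a₀) := by
    intro s
    funext i
    rw [hαe, Finset.sum_range_succ, Pi.add_apply, hαe]
  obtain ⟨K, hK⟩ : ∃ K : ℕ → ℕ,
      K = fun s => ∑ r ∈ Finset.range s, (if v ((θ ^ r) a₀) ≠ 0 then 1 else 0) := ⟨_, rfl⟩
  have hKe : ∀ s, K s = ∑ r ∈ Finset.range s, (if v ((θ ^ r) a₀) ≠ 0 then 1 else 0) :=
    fun s => by rw [hK]
  have hsum : ∀ s, ∑ i, α s i = 2 * K s := by
    intro s
    rw [hKe, Finset.mul_sum, Finset.sum_congr rfl fun i _ => hαe s i, Finset.sum_comm]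
    exact Finset.sum_congr rfl fun r _ => Cy3_sum _ (hv _)
  have hw : ∀ s i, w ((θ ^ s) a₀) i = z + (2 * k + 1 : ℕ) * (α s i : ℤ) - ((∑ l, α s l : ℕ) : ℤ) := by
    intro s i
    rw [Cy3_w θ v hθ h0 s i, hsum, hαe, hKe]
    push_cast
    ring
  -- the period
  have hP0 : 0 < Function.minimalPeriod θ a₀ :=
    Function.minimalPeriod_pos_of_mem_periodicPts
      (Function.Injective.mem_periodicPts θ.injective a₀)
  have hP1 : (θ ^ Function.minimalPeriod θ a₀) a₀ = a₀ := by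
    have h := Function.iterate_minimalPeriod (f := θ) (x := a₀)
    rwa [Equiv.Perm.iterate_eq_pow] at h
  obtain ⟨P, hP⟩ : ∃ P, P = Function.minimalPeriod θ a₀ := ⟨_, rfl⟩
  have hKP : K P ≤ 2 * k + 1 := by
    rw [hKe, hP]
    exact Cy3_K θ v hc a₀
  rw [← hP] at hP0 hP1
  have hKpos : 1 ≤ K P := by
    rw [hKe]
    have h3 := Finset.single_le_sum (f := fun r => if v ((θ ^ r) a₀) ≠ 0 then 1 else 0)
      (fun r _ => Nat.zero_le _) (Finset.mem_range.2 hP0)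
    simpa [hv0] using h3
  have hαP : ∀ i, (2 * k + 1) * α P i = 2 * K P := by
    intro i
    have h1 := hw P i
    rw [hP1, h0, hsum] at h1
    have h2 : ((2 * k + 1 : ℕ) : ℤ) * (α P i : ℤ) = ((2 * K P : ℕ) : ℤ) := by linarith
    exact_mod_cast h2
  have hKn : K P = 2 * k + 1 := by
    have h1 : (2 * k + 1) ∣ 2 * K P := ⟨_, (hαP 0).symm⟩
    have h2 : Nat.Coprime (2 * k + 1) 2 := by
      rw [Nat.coprime_two_right]
      exact odd_two_mul_add_one k
    have h3 := Nat.le_of_dvd (by omega) (h2.dvd_of_dvd_mul_left h1)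
    omega
  have hα2 : ∀ i, α P i = 2 := by
    intro i
    have h1 : (2 * k + 1) * α P i = (2 * k + 1) * 2 := by
      rw [hαP i, hKn, mul_comm]
    exact Nat.eq_of_mul_eq_mul_left (Nat.succ_pos (2 * k)) h1
  have hex : ∃ q, ∀ i, α q i = 2 := ⟨P, hα2⟩
  obtain ⟨p, hp, hpm⟩ : ∃ p, (∀ i, α p i = 2) ∧ ∀ q < p, ¬ ∀ i, α q i = 2 :=
    ⟨Nat.find hex, Nat.find_spec hex, fun q hq => Nat.find_min hex hq⟩
  obtain ⟨A, hA⟩ : ∃ A : Finset (Fin (2 * k + 1) → ℕ),
      A = (Fintype.piFinset fun _ : Fin (2 * k + 1) => Finset.range 3).filter fun f =>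
        Even (∑ i, f i) ∧ (¬ ∀ i, f i = 2) ∧
          ∃ a, ∀ i, w a i = z + (2 * k + 1 : ℕ) * (f i : ℤ) - ((∑ l, f l : ℕ) : ℤ) := ⟨_, rfl⟩
  have hmem : ∀ f, f ∈ A ↔ (∀ i, f i ≤ 2) ∧ Even (∑ i, f i) ∧ (¬ ∀ i, f i = 2) ∧
      ∃ a, ∀ i, w a i = z + (2 * k + 1 : ℕ) * (f i : ℤ) - ((∑ l, f l : ℕ) : ℤ) := by
    intro f
    rw [hA, Finset.mem_filter, Fintype.mem_piFinset]
    have h1 : (∀ i, f i ∈ Finset.range 3) ↔ ∀ i, f i ≤ 2 := by
      refine forall_congr' fun i => ?_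
      rw [Finset.mem_range]
      omega
    rw [h1]
  have hcard : A.card ≤ m := by
    have h1 : ∀ f : A, ∃ a, ∀ i, w a i = z + (2 * k + 1 : ℕ) * (f.1 i : ℤ) -
        ((∑ l, f.1 l : ℕ) : ℤ) := fun f => ((hmem f.1).1 f.2).2.2.2
    choose F hF using h1
    have h2 : Function.Injective F := by
      intro f g hfg
      apply Subtype.ext
      obtain ⟨f1, f2, f3, -⟩ := (hmem f.1).1 f.2
      obtain ⟨g1, g2, g3, -⟩ := (hmem g.1).1 g.2
      refine Cy3_inj f.1 g.1 f1 g1 f2 g2 f3 g3 fun i => ?_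
      have h3 := hF f i
      have h4 := hF g i
      rw [hfg] at h3
      linarith
    have h3 := Fintype.card_le_of_injective F h2
    rwa [Fintype.card_coe, Fintype.card_fin] at h3
  refine le_trans (comb A ?_ α p ?_ ?_ ?_ ?_) hcard
  · intro σ f hf
    rw [hmem] at hf ⊢
    obtain ⟨f1, f2, f3, a, ha⟩ := hf
    have e : ∑ i, (f ∘ σ) i = ∑ i, f i := Equiv.sum_comp σ f
    refine ⟨fun i => f1 (σ i), by rw [e]; exact f2, fun h => f3 fun i => ?_, ?_⟩
    · have h1 := h (σ.symm i)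
      rwa [Function.comp_apply, Equiv.apply_symm_apply] at h1
    · obtain ⟨π, hπ⟩ := st σ
      refine ⟨π a, fun i => ?_⟩
      rw [hπ a i, ha (σ i), e]
      rfl
  · funext i
    rw [hαe, Finset.range_zero, Finset.sum_empty, Pi.zero_apply]
  · exact hp
  · intro s _
    rw [hα1]
    rcases hv ((θ ^ s) a₀) with h | ⟨i, j, h⟩
    · left
      rw [h, add_zero]
    · right
      exact ⟨i, j, by rw [h]⟩
  · intro s hs'
    rw [hmem]
    refine ⟨fun i => ?_, ⟨K s, by rw [hsum, two_mul]⟩, hpm s hs', (θ ^ s) a₀, hw s⟩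
    rw [← hp i, hαe, hαe]
    exact Finset.sum_le_sum_of_subset (Finset.range_subset_range.2 hs'.le)

end PadDet.Eq
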