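import Pool.Agent.H.MP_d7db32_ag.Eq.L.Exp
import Pool.Agent.H.MP_d7db32_ag.Eq.L.Shf

/-!
# MP_d7db32_ag, Eq/M/Bas2: the torus of `SL_n`

The same as L/Bas, with numbers `t i` whose only multiplicative relation is `∏ t i = 1`. Weights are
vectors in `ℤ ^ n` with constant sum `s`; the matrix unit `E_ij` has the weight `n (ε_i + ε_j) - 2`
(all coordinates minus `2`).
-/

set_option autoImplicit false

namespace PadDet.Eq

open Matrix

variable {n m : ℕ}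

/-- The only multiplicative relation is `∏ t i = 1`. -/
def Gen1 (t : Fin n → ℂ) : Prop :=
  (∀ i, t i ≠ 0) ∧ ∏ i, t i = 1 ∧ ∀ w : Fin n → ℤ, ∏ i, t i ^ w i = 1 → ∀ i j, w i = w j

/-- Determinant expression of `c F`, equivariant for `t` and for the permutations. -/
structure Pwf (n m : ℕ) (c : ℂ) (L : Matrix (Fin m) (Fin m) ℂ)
    (M : Matrix (Fin n) (Fin n) ℂ →ₗ[ℂ] Matrix (Fin m) (Fin m) ℂ) (t : Fin n → ℂ) : Prop where
  c0 : c ≠ 0
  det : ∀ X, (L + M X).det = c * Fv X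
  t0 : ∀ i, t i ≠ 0
  pT : Eqv L M (tor t)
  pS : ∀ σ : Equiv.Perm (Fin n), Eqv L M (prm σ)

/-- Weights in `ℤ ^ n` with sum `s`. -/
structure Zt (n m : ℕ) (c : ℂ) (L : Matrix (Fin m) (Fin m) ℂ)
    (M : Matrix (Fin n) (Fin n) ℂ →ₗ[ℂ] Matrix (Fin m) (Fin m) ℂ)
    (w w' : Fin m → Fin n → ℤ) (s : ℤ) : Prop where
  c0 : c ≠ 0
  det : ∀ X, (L + M X).det = c * Fv X
  gL : ∀ b a, L b a ≠ 0 → w' b = w a
  gE : ∀ b a i j, M (Matrix.single i j 1) b a ≠ 0 → ∀ l,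
    w' b l = w a l + n * ((if l = i then 1 else 0) + (if l = j then 1 else 0)) - 2
  sm : ∀ a, ∑ l, w a l = s
  sm' : ∀ b, ∑ l, w' b l = s

/-- A basis of the kernel of `L` which consists of weight vectors. -/
structure Kb (m r : ℕ) {n : ℕ} (L : Matrix (Fin m) (Fin m) ℂ) (w : Fin m → Fin n → ℤ)
    (v : Fin r → Fin m → ℂ) (u : Fin r → Fin n → ℤ) : Prop where
  ind : LinearIndependent ℂ v
  ker : ∀ j, L *ᵥ v j = 0
  wt : ∀ j a, v j a ≠ 0 → w a = u j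
  span : ∀ x, L *ᵥ x = 0 → ∃ ξ : Fin r → ℂ, x = ∑ j, ξ j • v j

theorem prm_zero (σ : Equiv.Perm (Fin n)) : prm σ (0 : Matrix (Fin n) (Fin n) ℂ) = 0 := rfl

theorem tor_zero (t : Fin n → ℂ) : tor t (0 : Matrix (Fin n) (Fin n) ℂ) = 0 := by
  ext a b
  simp [tor]

/-- A morphism over `g` with `g 0 = 0` commutes with `L`. -/
theorem Mor.zero {L : Matrix (Fin m) (Fin m) ℂ}
    {M : Matrix (Fin n) (Fin n) ℂ →ₗ[ℂ] Matrix (Fin m) (Fin m) ℂ}
    {g : Matrix (Fin n) (Fin n) ℂ → Matrix (Fin n) (Fin n) ℂ} {A B : Matrix (Fin m) (Fin m) ℂ}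
    (h : Mor L M g A B) (hg : g 0 = 0) : A * L = L * B := by
  have h1 := h 0
  rwa [hg, map_zero, add_zero] at h1

end PadDet.Eq
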