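import Pool.Agent.H.MP_d7db32_ag.Eq.L.Gex
import Pool.Agent.H.MP_d7db32_ag.Eq.M.Bas2

/-!
# MP_d7db32_ag, Eq/M/Gex2: numbers with product one and no other relation

`t` from `exists_gen` for `n`; `t' i = t i ^ n / ∏ t j`, or `t' i = t i / t (i + 1)`..., e.g. `t' i = t i ^ n * (∏ j, t j)⁻¹`: the product is
`1`; `∏ t' i ^ w i = ∏ t i ^ (n w i - ∑ w)`, so `n w i = ∑ w` for all `i`.
-/

set_option autoImplicit false

namespace PadDet.Eq

theorem exists_gen1 (k : ℕ) : ∃ t : Fin (2 * k + 1) → ℂ, Gen1 t := by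
  obtain ⟨t, h0, ht⟩ := exists_gen (2 * k + 1)
  have hP : ∏ j, t j ≠ 0 := Finset.prod_ne_zero_iff.2 fun j _ => h0 j
  refine ⟨fun i => t i ^ (2 * k + 1) * (∏ j, t j)⁻¹,
    fun i => mul_ne_zero (pow_ne_zero _ (h0 i)) (inv_ne_zero hP), ?_, ?_⟩
  · rw [Finset.prod_mul_distrib, Finset.prod_const, Finset.prod_pow, Finset.card_univ,
      Fintype.card_fin, inv_pow, mul_inv_cancel₀ (pow_ne_zero _ hP)]
  · intro w hw
    have h1 : ∏ i, t i ^ (((2 * k + 1 : ℕ) : ℤ) * w i - ∑ j, w j) = 1 := by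
      rw [← hw]
      have h2 : ∀ i, t i ^ (((2 * k + 1 : ℕ) : ℤ) * w i - ∑ j, w j) =
          (t i ^ (2 * k + 1)) ^ w i * (t i ^ (∑ j, w j))⁻¹ := by
        intro i
        rw [zpow_sub₀ (h0 i), zpow_mul, zpow_natCast, div_eq_mul_inv]
      rw [Finset.prod_congr rfl fun i _ => h2 i]
      rw [Finset.prod_congr rfl fun i (_ : i ∈ Finset.univ) => mul_zpow (t i ^ (2 * k + 1))
        (∏ j, t j)⁻¹ (w i)]
      rw [Finset.prod_mul_distrib, Finset.prod_mul_distrib]
      congr 1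
      have h3 : ∀ s : Finset (Fin (2 * k + 1)), ∏ i ∈ s, (∏ j, t j)⁻¹ ^ w i =
          (∏ j, t j)⁻¹ ^ (∑ i ∈ s, w i) := by
        intro s
        induction s using Finset.induction_on with
        | empty => simp
        | insert a s ha ih =>
          rw [Finset.prod_insert ha, Finset.sum_insert ha, zpow_add₀ (inv_ne_zero hP), ih]
      rw [h3, Finset.prod_inv_distrib, Finset.prod_zpow, inv_zpow]
    have h4 := ht _ h1
    intro i j
    have h5 := congrFun h4 i
    have h6 := congrFun h4 j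
    simp only [Pi.zero_apply] at h5 h6
    have h7 : ((2 * k + 1 : ℕ) : ℤ) * w i = ((2 * k + 1 : ℕ) : ℤ) * w j := by linarith
    exact mul_left_cancel₀ (by positivity) h7

/-- Squares. -/
theorem gen1_sq {n : ℕ} {t : Fin n → ℂ} (h : Gen1 t) : Gen1 fun i => t i ^ 2 := by
  refine ⟨fun i => pow_ne_zero _ (h.1 i), ?_, ?_⟩
  · rw [Finset.prod_pow, h.2.1, one_pow]
  · intro w hw i j
    have h1 : ∏ i, t i ^ (2 * w i) = 1 := by
      rw [← hw]
      refine Finset.prod_congr rfl fun i _ => ?_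
      rw [zpow_mul]
      norm_cast
    have h2 : 2 * w i = 2 * w j := h.2.2 (fun i => 2 * w i) h1 i j
    linarith

end PadDet.Eq
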