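import Pool.Agent.H.MP_d7db32_ag.Eq.L.KerW

/-!
# MP_d7db32_ag, Eq/M/KerW2: the possible weights (compare L/KerW; `N = 2 k + 1`)

Evaluate the hypothesis at `i`, `j`, `p`, `q` and at further indices (`2 k + 1 ≥ 3`).
-/

set_option autoImplicit false

namespace PadDet.Eq

theorem wtK2 {k : ℕ} (hk : 1 ≤ k) {e κ : ℤ} (hκ : κ ≠ 0) {j p q : Fin (2 * k + 1)}
    (h : ∀ l, e = κ * (if l = j then 1 else 0) + (2 * k + 1 : ℕ) *
      ((if l = p then 1 else 0) + (if l = q then 1 else 0))) :
    (κ = -2 * (2 * k + 1 : ℕ) → p = q) ∧ (κ ≠ -2 * (2 * k + 1 : ℕ) → p ≠ q) := by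
  have hN0 : (0 : ℤ) < ((2 * k + 1 : ℕ) : ℤ) := by positivity
  generalize ((2 * k + 1 : ℕ) : ℤ) = N at h hN0 ⊢
  have h3 : 2 < 2 * k + 1 := by omega
  constructor
  · intro h1
    by_contra hpq
    have hp := h p
    have hq := h q
    rw [if_pos rfl, if_neg hpq] at hp
    rw [if_pos rfl, if_neg (Ne.symm hpq)] at hq
    by_cases hpj : p = j
    · have hqj : q ≠ j := fun hh => hpq (hpj.trans hh.symm)
      rw [if_pos hpj] at hp
      rw [if_neg hqj] at hq
      omega
    · by_cases hqj : q = j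
      · rw [if_neg hpj] at hp
        rw [if_pos hqj] at hq
        omega
      · have hj := h j
        rw [if_pos rfl, if_neg (Ne.symm hpj), if_neg (Ne.symm hqj)] at hj
        rw [if_neg hpj] at hp
        omega
  · rintro h1 rfl
    obtain ⟨l, hlj, hlp⟩ := Fin.exists_ne_and_ne_of_two_lt j p h3
    have hl := h l
    rw [if_neg hlj, if_neg hlp] at hl
    have hp := h p
    rw [if_pos rfl] at hp
    by_cases hpj : p = j
    · rw [if_pos hpj] at hp
      apply h1
      omega
    · rw [if_neg hpj] at hp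
      omega

theorem wtD2 {k : ℕ} (hk : 1 ≤ k) {e τ κ : ℤ} (hτ : τ ≠ 0) (hκ : κ ≠ 0)
    {i j p q : Fin (2 * k + 1)}
    (h : ∀ l, e + τ * (if l = i then 1 else 0) = κ * (if l = j then 1 else 0) +
      (2 * k + 1 : ℕ) * ((if l = p then 1 else 0) + (if l = q then 1 else 0))) :
    (e = 0 ∧ τ = (2 * k + 1 : ℕ) ∧ κ = -(2 * k + 1 : ℕ) → (p = i ∧ q = j) ∨ (p = j ∧ q = i)) ∧
      (e = (2 * k + 1 : ℕ) → p ≠ q) ∧
      (e ≠ (2 * k + 1 : ℕ) → ¬ (e = 0 ∧ τ = (2 * k + 1 : ℕ) ∧ κ = -(2 * k + 1 : ℕ)) →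
        p = q) := by
  have hN0 : (0 : ℤ) < ((2 * k + 1 : ℕ) : ℤ) := by positivity
  generalize ((2 * k + 1 : ℕ) : ℤ) = N at h hN0 ⊢
  have h3 : 2 < 2 * k + 1 := by omega
  refine ⟨?_, ?_, ?_⟩
  · rintro ⟨he, ht, hk'⟩
    subst he ht hk'
    have hc : ∀ l : Fin (2 * k + 1), ((if l = i then 1 else 0) + (if l = j then 1 else 0) : ℤ) =
        (if l = p then 1 else 0) + (if l = q then 1 else 0) := by
      intro l
      have h4 := h l
      have h5 : τ * (((if l = i then 1 else 0) + (if l = j then 1 else 0) : ℤ) -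
          ((if l = p then 1 else 0) + (if l = q then 1 else 0))) = 0 := by linarith
      rcases mul_eq_zero.1 h5 with h6 | h6
      · exact absurd h6 hN0.ne'
      · linarith
    by_cases hpi : p = i
    · left
      refine ⟨hpi, ?_⟩
      by_contra hqj
      have h4 := hc q
      have h5 := hc j
      subst hpi
      rw [if_pos rfl, if_neg hqj] at h4
      rw [if_pos rfl, if_neg (Ne.symm hqj)] at h5
      split_ifs at h4 h5 <;> omega
    · right
      have h4 := hc p
      rw [if_neg hpi, if_pos rfl] at h4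
      have hpj : p = j := by
        by_contra hpj
        rw [if_neg hpj] at h4
        split_ifs at h4 <;> omega
      refine ⟨hpj, ?_⟩
      by_contra hqi
      have h5 := hc i
      rw [if_pos rfl, if_neg (Ne.symm hpi), if_neg (Ne.symm hqi)] at h5
      split_ifs at h5 <;> omega
  · rintro he rfl
    obtain ⟨l, hli, hlp⟩ := Fin.exists_ne_and_ne_of_two_lt i p h3
    have hl := h l
    rw [if_neg hli, if_neg hlp] at hl
    by_cases hlj : l = j
    · subst hlj
      have hp := h p
      rw [if_neg (Ne.symm hlp), if_pos rfl] at hp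
      by_cases hpi : p = i
      · obtain ⟨l', hli', hlp'⟩ := Fin.exists_ne_and_ne_of_two_lt i l h3
        have hl' := h l'
        rw [if_neg hli', if_neg hlp', if_neg (hpi ▸ hli')] at hl'
        omega
      · rw [if_neg hpi] at hp
        omega
    · rw [if_neg hlj] at hl
      omega
  · intro he hn
    by_contra hpq
    have hp := h p
    have hq := h q
    rw [if_pos (rfl : p = p), if_neg hpq] at hp
    rw [if_pos (rfl : q = q), if_neg (Ne.symm hpq)] at hq
    obtain ⟨l, hlp, hlq⟩ := Fin.exists_ne_and_ne_of_two_lt p q h3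
    have hl := h l
    rw [if_neg hlp, if_neg hlq] at hl
    by_cases hpi : p = i
    · have hqi : q ≠ i := fun hh => hpq (hpi.trans hh.symm)
      by_cases hqj : q = j
      · have hpj : p ≠ j := fun hh => hpq (hh.trans hqj.symm)
        rw [if_pos hpi, if_neg hpj] at hp
        rw [if_neg hqi, if_pos hqj] at hq
        rw [if_neg (hpi ▸ hlp), if_neg (hqj ▸ hlq)] at hl
        apply hn
        refine ⟨?_, ?_, ?_⟩ <;> omega
      · rw [if_neg hqi, if_neg hqj] at hq
        omega
    · by_cases hpj : p = j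
      · have hqj : q ≠ j := fun hh => hpq (hpj.trans hh.symm)
        by_cases hqi : q = i
        · rw [if_neg hpi, if_pos hpj] at hp
          rw [if_pos hqi, if_neg hqj] at hq
          rw [if_neg (hqi ▸ hlq), if_neg (hpj ▸ hlp)] at hl
          apply hn
          refine ⟨?_, ?_, ?_⟩ <;> omega
        · rw [if_neg hqi, if_neg hqj] at hq
          omega
      · rw [if_neg hpi, if_neg hpj] at hp
        omega

end PadDet.Eq
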