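import Pool.Agent.H.MP_d7db32_ag.Eq.M.Shf2
import Pool.Agent.H.MP_d7db32_ag.Eq.M.KerW2
import Pool.Agent.H.MP_d7db32_ag.Eq.L.KerA
import Pool.Agent.H.MP_d7db32_ag.Eq.L.KerM

/-!
# MP_d7db32_ag, Eq/M/KerA2: the kernels have constant weights

`kln_of`: `f = u j₀` is not constant. All the rearrangements `f ∘ σ` are among the `u j` (`st`), so there are at most `r ≤ n` different ones: `fibre_two` (S4) and
`cls` (S3), for `f` cast to `ℂ`: `f` is `c₁` except at one place, where it is `c₂`. Its `n` rearrangements `wz c₁ c₂ i` (`Equiv.swap`) are `u (j i)`, `j` injective, so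
`r = n` and `j` is a bijection; `v'' i = v (j i)`.
`r_le`: `s1` (S1), `Fv_smul`, `exists_ne`: `m ≤ L.rank + n`.
`ker_aux` (suppose that `u j₀` is not constant): `Kln m L w c₁ c₂ x`, `κ = c₂ - c₁ ≠ 0`. Case 1: some `u' j` is not constant: `kln_of` for
`Lᵀ`: `Kln m Lᵀ w' d₁ d₂ y`. If `y i ⬝ᵥ (M (single p q 1) *ᵥ x j) ≠ 0` then by `gE` `wz d₁ d₂ i l = wz c₁ c₂ j l + n (...) - 2` for all `l`, so `wtD2` applies with
`e = d₁ - c₁ + 2`, `τ = d₂ - d₁`. If `e = 0`, `τ = n`, `κ = -n`: `no_main` (L/KerM); if `e = n`: all pairings with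
`single p p 1` vanish (expand arbitrary kernel vectors in `x j`, `y i`; `Lᵀ *ᵥ y = 0` iff `y ᵥ* L = 0`): `no_diag` (L/KerP); otherwise `no_off`. Case 2: all `u' j` are
constant: `wtK2` with `e = u' i l - c₁ + 2`: for `κ = -2 n` all pairings with `single p q 1`, `p ≠ q`, vanish: `no_off`; otherwise `no_diag`.
`ker_const`: `ker_aux` for the expression and for the transposed one (`zu_tr`).
-/

set_option autoImplicit false

namespace PadDet.Eq

open Matrix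

variable {k m r r' : ℕ} {c : ℂ} {L : Matrix (Fin m) (Fin m) ℂ}
  {M : Matrix (Fin (2 * k + 1)) (Fin (2 * k + 1)) ℂ →ₗ[ℂ] Matrix (Fin m) (Fin m) ℂ}
  {w w' : Fin m → Fin (2 * k + 1) → ℤ} {s : ℤ} {v : Fin r → Fin m → ℂ}
  {u : Fin r → Fin (2 * k + 1) → ℤ} {v' : Fin r' → Fin m → ℂ}
  {u' : Fin r' → Fin (2 * k + 1) → ℤ}

private theorem ka2_inj {n : ℕ} {η η' : Fin n → ℤ}
    (h : (fun i => ((η i : ℤ) : ℂ)) = fun i => ((η' i : ℤ) : ℂ)) : η = η' := by
  funext i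
  have := congrFun h i
  exact_mod_cast this

theorem kln_of (hk : 1 ≤ k) (K : Kb m r L w v u) (st : Stb u) (hr : r ≤ 2 * k + 1)
    (rk : m = L.rank + r) {j₀ : Fin r} {i i' : Fin (2 * k + 1)} (h : u j₀ i ≠ u j₀ i') :
    ∃ c₁ c₂ x, Kln m L w c₁ c₂ x := by
  classical
  set ω := u j₀ with hω
  have hJ : ∀ σ : Equiv.Perm (Fin (2 * k + 1)), ∃ j, u j = ω ∘ σ := by
    intro σ
    obtain ⟨π, hπ⟩ := st σ
    exact ⟨π j₀, funext fun l => hπ j₀ l⟩
  choose J hJ using hJ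
  have hH : ∀ (ι : Type) [Fintype ι] (σ : ι → Equiv.Perm (Fin (2 * k + 1))),
      Function.Injective (fun i => (fun l => (ω l : ℂ)) ∘ σ i) → Fintype.card ι ≤ 2 * k + 1 := by
    intro ι _ σ hσ
    have hinj : Function.Injective fun i => J (σ i) := by
      intro a b hab
      apply hσ
      have h1 : ω ∘ σ a = ω ∘ σ b := by
        rw [← hJ, ← hJ]
        exact congrArg u hab
      funext l
      show ((ω (σ a l) : ℤ) : ℂ) = ((ω (σ b l) : ℤ) : ℂ)
      rw [show ω (σ a l) = ω (σ b l) from congrFun h1 l]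
    have := Fintype.card_le_of_injective _ hinj
    rw [Fintype.card_fin] at this
    omega
  obtain ⟨z, hz⟩ := fibre_two (by omega) (fun l => (ω l : ℂ)) hH
  obtain ⟨l₀, hl₀⟩ : ∃ l, (ω l : ℂ) = z := by
    have h1 : (Finset.univ.filter fun l => (ω l : ℂ) = z).Nonempty := by
      rw [← Finset.card_pos]
      omega
    obtain ⟨l, hl⟩ := h1
    exact ⟨l, (Finset.mem_filter.1 hl).2⟩
  have hnz : ∃ i, (ω i : ℂ) ≠ z := by
    by_contra hcon
    push Not at hcon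
    apply h
    have h1 := (hcon i).trans (hcon i').symm
    exact_mod_cast h1
  obtain ⟨i₀, hi₀, hrest⟩ := cls (fun l => (ω l : ℂ)) z hz hnz hH
  have hi : ω i₀ ≠ ω l₀ := by
    intro h1
    apply hi₀
    show (ω i₀ : ℂ) = z
    rw [h1, hl₀]
  have hrr : ∀ j, j ≠ i₀ → ω j = ω l₀ := by
    intro j hj
    have h1 : (ω j : ℂ) = z := hrest j hj
    rw [← hl₀] at h1
    exact_mod_cast h1
  have hsw : ∀ j, ω ∘ (Equiv.swap i₀ j) = wz (ω l₀) (ω i₀) j := by
    intro j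
    funext i
    unfold wz
    rw [Function.comp_apply]
    by_cases hij : i = j
    · subst hij
      rw [Equiv.swap_apply_right, if_pos rfl]
    · rw [if_neg hij]
      apply hrr
      intro h1
      apply hij
      have h5 := congrArg (Equiv.swap i₀ j) h1
      rw [Equiv.swap_apply_self, Equiv.swap_apply_left] at h5
      exact h5
  have huw : ∀ j, u (J (Equiv.swap i₀ j)) = wz (ω l₀) (ω i₀) j := fun j => by
    rw [hJ, hsw]
  have hinj : Function.Injective fun j : Fin (2 * k + 1) => J (Equiv.swap i₀ j) := by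
    intro j j' hjj
    by_contra hne
    have h1 : wz (ω l₀) (ω i₀) j = wz (ω l₀) (ω i₀) j' := by
      rw [← huw, ← huw]
      exact congrArg u hjj
    have h2 := congrFun h1 j
    unfold wz at h2
    rw [if_pos rfl, if_neg hne] at h2
    exact hi h2
  have hcard := Fintype.card_le_of_injective _ hinj
  rw [Fintype.card_fin, Fintype.card_fin] at hcard
  have hrk : m = L.rank + (2 * k + 1) := by omega
  have hind : LinearIndependent ℂ fun j : Fin (2 * k + 1) => v (J (Equiv.swap i₀ j)) :=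
    K.ind.comp _ hinj
  refine ⟨ω l₀, ω i₀, fun j => v (J (Equiv.swap i₀ j)),
    ⟨hi.symm, hrk, hind, fun j => K.ker _, ?_, ?_⟩⟩
  · intro j a ha
    rw [← huw j]
    exact K.wt _ a ha
  · intro x hx
    exact ker_span _ hind (fun j => K.ker _) hrk hx

theorem r_le (h : Zu (2 * k + 1) m r r' c L M w w' s v u v' u') :
    r ≤ 2 * k + 1 ∧ r' ≤ 2 * k + 1 := by
  obtain ⟨X, hX⟩ := exists_ne k
  have hle : m ≤ L.rank + (2 * k + 1) :=
    (s1 L (M X) (c * Fv X) (fun t => by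
      rw [← map_smul, h.det, Fv_smul (by omega)]; ring)).1 (mul_ne_zero h.c0 hX)
  have h1 := h.rk
  have h2 := h.rk'
  omega

private theorem ka2_dot {y x : Fin m → ℂ} {A : Matrix (Fin m) (Fin m) ℂ}
    (h : y ⬝ᵥ (A *ᵥ x) ≠ 0) : ∃ b a, y b ≠ 0 ∧ A b a ≠ 0 ∧ x a ≠ 0 := by
  obtain ⟨b, -, hb⟩ := Finset.exists_ne_zero_of_sum_ne_zero h
  have hb2 : ∑ a, A b a * x a ≠ 0 := right_ne_zero_of_mul hb
  obtain ⟨a, -, ha⟩ := Finset.exists_ne_zero_of_sum_ne_zero hb2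
  exact ⟨b, a, left_ne_zero_of_mul hb, left_ne_zero_of_mul ha, right_ne_zero_of_mul ha⟩

private theorem ka2_val {c₁ c₂ : ℤ} (j l : Fin (2 * k + 1)) :
    wz c₁ c₂ j l = c₁ + (c₂ - c₁) * (if l = j then 1 else 0) := by
  unfold wz
  by_cases hl : l = j
  · rw [if_pos hl, if_pos hl]
    ring
  · rw [if_neg hl, if_neg hl]
    ring

private theorem ka2_exp {N : Matrix (Fin m) (Fin m) ℂ} {ι κ : Type*} [Fintype ι] [Fintype κ]
    {x : ι → Fin m → ℂ} {y : κ → Fin m → ℂ} (h0 : ∀ i j, y i ⬝ᵥ (N *ᵥ x j) = 0)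
    {X Y : Fin m → ℂ} (hX : ∃ ξ : ι → ℂ, X = ∑ j, ξ j • x j)
    (hY : ∃ η : κ → ℂ, Y = ∑ j, η j • y j) : Y ⬝ᵥ (N *ᵥ X) = 0 := by
  obtain ⟨ξ, rfl⟩ := hX
  obtain ⟨η, rfl⟩ := hY
  rw [Matrix.mulVec_sum, dotProduct_sum]
  refine Finset.sum_eq_zero fun j _ => ?_
  rw [Matrix.mulVec_smul, dotProduct_smul, sum_dotProduct, Finset.sum_eq_zero, smul_zero]
  intro i _
  rw [smul_dotProduct, h0 i j, smul_zero]

theorem ker_aux (hk : 1 ≤ k) (h : Zu (2 * k + 1) m r r' c L M w w' s v u v' u') {j₀ : Fin r}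
    {i i' : Fin (2 * k + 1)} (h0 : u j₀ i ≠ u j₀ i') : False := by
  obtain ⟨c₁, c₂, x, K⟩ := kln_of hk h.kb h.su (r_le h).1 h.rk h0
  have hκ : c₂ - c₁ ≠ 0 := sub_ne_zero.2 K.ne.symm
  by_cases H : ∃ j l l', u' j l ≠ u' j l'
  · obtain ⟨j₁, l, l', hl⟩ := H
    have hrk' : m = Lᵀ.rank + r' := by
      rw [Matrix.rank_transpose]
      exact h.rk'
    obtain ⟨d₁, d₂, y, K'⟩ := kln_of hk h.kb' h.su' (r_le h).2 hrk' hl
    have hτ : d₂ - d₁ ≠ 0 := sub_ne_zero.2 K'.ne.symm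
    have hyL : ∀ i, y i ᵥ* L = 0 := by
      intro i
      rw [← Matrix.mulVec_transpose]
      exact K'.ker i
    have hsp : ∀ z, z ᵥ* L = 0 → ∃ η : Fin (2 * k + 1) → ℂ, z = ∑ i, η i • y i := by
      intro z hz
      refine K'.span z ?_
      rw [Matrix.mulVec_transpose]
      exact hz
    have key : ∀ i j p q, y i ⬝ᵥ (M (Matrix.single p q 1) *ᵥ x j) ≠ 0 →
        (d₁ - c₁ + 2 = 0 ∧ d₂ - d₁ = (2 * k + 1 : ℕ) ∧ c₂ - c₁ = -(2 * k + 1 : ℕ) →
          (p = i ∧ q = j) ∨ (p = j ∧ q = i)) ∧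
        (d₁ - c₁ + 2 = (2 * k + 1 : ℕ) → p ≠ q) ∧
        (d₁ - c₁ + 2 ≠ (2 * k + 1 : ℕ) →
          ¬ (d₁ - c₁ + 2 = 0 ∧ d₂ - d₁ = (2 * k + 1 : ℕ) ∧ c₂ - c₁ = -(2 * k + 1 : ℕ)) →
          p = q) := by
      intro i j p q hne
      obtain ⟨b, a, hb, hba, ha⟩ := ka2_dot hne
      refine wtD2 hk hτ hκ fun l => ?_
      have h4 := h.gE b a p q hba l
      rw [K.wt j a ha, K'.wt i b hb, ka2_val, ka2_val] at h4
      linear_combination h4
    have hexp : ∀ (N : Matrix (Fin m) (Fin m) ℂ), (∀ i j, y i ⬝ᵥ (N *ᵥ x j) = 0) →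
        ∀ X Y, L *ᵥ X = 0 → Y ᵥ* L = 0 → Y ⬝ᵥ (N *ᵥ X) = 0 :=
      fun N hN X Y hX hY => ka2_exp hN (K.span X hX) (hsp Y hY)
    by_cases hA : d₁ - c₁ + 2 = 0 ∧ d₂ - d₁ = (2 * k + 1 : ℕ) ∧ c₂ - c₁ = -(2 * k + 1 : ℕ)
    · exact no_main hk h.c0 h.det K.rk x y K.ind K.ker hyL hsp fun i j p q hne =>
        (key i j p q hne).1 hA
    · by_cases hB : d₁ - c₁ + 2 = (2 * k + 1 : ℕ)
      · refine no_diag h.c0 h.det K.rk fun p X Y hX hY => hexp _ (fun i j => ?_) X Y hX hY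
        by_contra hne
        exact (key i j p p hne).2.1 hB rfl
      · refine no_off hk h.c0 h.det K.rk fun p q hpq X Y hX hY =>
          hexp _ (fun i j => ?_) X Y hX hY
        by_contra hne
        exact hpq ((key i j p q hne).2.2 hB hA)
  · push Not at H
    have hsp : ∀ z, z ᵥ* L = 0 → ∃ η : Fin r' → ℂ, z = ∑ i, η i • v' i := by
      intro z hz
      refine h.kb'.span z ?_
      rw [Matrix.mulVec_transpose]
      exact hz
    have key : ∀ i j p q, v' i ⬝ᵥ (M (Matrix.single p q 1) *ᵥ x j) ≠ 0 →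
        (c₂ - c₁ = -2 * (2 * k + 1 : ℕ) → p = q) ∧
          (c₂ - c₁ ≠ -2 * (2 * k + 1 : ℕ) → p ≠ q) := by
      intro i j p q hne
      obtain ⟨b, a, hb, hba, ha⟩ := ka2_dot hne
      refine wtK2 hk (e := u' i 0 - c₁ + 2) hκ (j := j) fun l => ?_
      have h4 := h.gE b a p q hba l
      rw [K.wt j a ha, h.kb'.wt i b hb, ka2_val, H i l 0] at h4
      linear_combination h4
    have hexp : ∀ (N : Matrix (Fin m) (Fin m) ℂ), (∀ i j, v' i ⬝ᵥ (N *ᵥ x j) = 0) →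
        ∀ X Y, L *ᵥ X = 0 → Y ᵥ* L = 0 → Y ⬝ᵥ (N *ᵥ X) = 0 :=
      fun N hN X Y hX hY => ka2_exp hN (K.span X hX) (hsp Y hY)
    by_cases hA : c₂ - c₁ = -2 * (2 * k + 1 : ℕ)
    · refine no_off hk h.c0 h.det K.rk fun p q hpq X Y hX hY =>
        hexp _ (fun i j => ?_) X Y hX hY
      by_contra hne
      exact hpq ((key i j p q hne).1 hA)
    · refine no_diag h.c0 h.det K.rk fun p X Y hX hY => hexp _ (fun i j => ?_) X Y hX hY
      by_contra hne
      exact (key i j p p hne).2 hA rfl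

theorem ker_const (hk : 1 ≤ k) (h : Zu (2 * k + 1) m r r' c L M w w' s v u v' u') :
    (∀ j i i', u j i = u j i') ∧ ∀ j i i', u' j i = u' j i' := by
  refine ⟨fun j i i' => ?_, fun j i i' => ?_⟩
  · by_contra hne
    exact ker_aux hk h hne
  · by_contra hne
    exact ker_aux hk (zu_tr h) (j₀ := j) (i := i) (i' := i') fun he => hne (neg_injective he)

end PadDet.Eq
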