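import Pool.Agent.H.MP_d7db32_ag.Eq.L.Ctb

/-!
# MP_d7db32_ag, Eq/M/Cps: the characteristic polynomial on an invariant subspace

`cp_sub`: `(D (1 + s y)) P = P (D₁ (1 + s y₁))`; an eigenvector `v` of `D₁ (1 + s y₁)` gives the eigenvector `P v ≠ 0` of
`D (1 + s y)` (`P' P = 1`), so `charpoly_ctb` (L/Ctb) applies to `D₁` and `D₁ y₁`.
`cp_quo`: `Q (D (1 + s x)) = (D₁ (1 + s x₁)) Q`; an eigenvalue `z` of `D₁ (1 + s x₁)` has a left eigenvector `u` (`z` is an eigenvalue of the transposed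
matrix, determinant of `z - ...`), `u Q ≠ 0` is a left eigenvector of `D (1 + s x)`, so `z` is an eigenvalue of it.
-/

set_option autoImplicit false

namespace PadDet.Eq

open Matrix

variable {m r : ℕ}

theorem cp_sub {D y : Matrix (Fin m) (Fin m) ℂ} {D₁ y₁ : Matrix (Fin r) (Fin r) ℂ}
    {P : Matrix (Fin m) (Fin r) ℂ} {P' : Matrix (Fin r) (Fin m) ℂ} (hP : P' * P = 1)
    (h1 : D * P = P * D₁) (h2 : y * P = P * y₁) {S : Set ℂ} (hS : S.Countable)
    (h : ∀ (s z : ℂ) (v : Fin m → ℂ), v ≠ 0 → (D * (1 + s • y)) *ᵥ v = z • v → z ∈ S) :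
    (D₁ * (1 + y₁)).charpoly = D₁.charpoly := by
  rw [Matrix.mul_add, Matrix.mul_one]
  refine charpoly_ctb D₁ (D₁ * y₁) hS fun s z v hv h3 => ?_
  have h4 : D * (1 + s • y) * P = P * (D₁ + s • (D₁ * y₁)) := by
    rw [Matrix.mul_assoc, Matrix.add_mul, Matrix.one_mul, Matrix.smul_mul, h2, Matrix.mul_add,
      Matrix.mul_smul, ← Matrix.mul_assoc D, h1, Matrix.mul_add, Matrix.mul_smul,
      Matrix.mul_assoc P D₁]
  refine h s z (P *ᵥ v) ?_ ?_
  · intro h5
    apply hv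
    have h6 : P' *ᵥ (P *ᵥ v) = 0 := by rw [h5, Matrix.mulVec_zero]
    rwa [Matrix.mulVec_mulVec, hP, Matrix.one_mulVec] at h6
  · rw [Matrix.mulVec_mulVec, h4, ← Matrix.mulVec_mulVec, h3, Matrix.mulVec_smul]

theorem cp_quo {D x : Matrix (Fin m) (Fin m) ℂ} {D₁ x₁ : Matrix (Fin r) (Fin r) ℂ}
    {Q : Matrix (Fin r) (Fin m) ℂ} {Q' : Matrix (Fin m) (Fin r) ℂ} (hQ : Q * Q' = 1)
    (h1 : Q * D = D₁ * Q) (h2 : Q * x = x₁ * Q) {S : Set ℂ} (hS : S.Countable)
    (h : ∀ (s z : ℂ) (v : Fin m → ℂ), v ≠ 0 → (D * (1 + s • x)) *ᵥ v = z • v → z ∈ S) :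
    (D₁ * (1 + x₁)).charpoly = D₁.charpoly := by
  rw [Matrix.mul_add, Matrix.mul_one]
  refine charpoly_ctb D₁ (D₁ * x₁) hS fun s z v hv h3 => ?_
  have h4 : (D₁ + s • (D₁ * x₁)) * Q = Q * (D * (1 + s • x)) := by
    rw [Matrix.mul_add, Matrix.mul_one, Matrix.mul_smul, Matrix.mul_add, Matrix.mul_smul, h1,
      ← Matrix.mul_assoc Q D, h1, Matrix.mul_assoc D₁ Q, h2, Matrix.add_mul, Matrix.smul_mul,
      Matrix.mul_assoc D₁ x₁]
  have h5 : (D₁ + s • (D₁ * x₁) - z • (1 : Matrix (Fin r) (Fin r) ℂ)).det = 0 := by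
    rw [← Matrix.exists_mulVec_eq_zero_iff]
    refine ⟨v, hv, ?_⟩
    rw [Matrix.sub_mulVec, h3, Matrix.smul_mulVec, Matrix.one_mulVec, sub_self]
  rw [← Matrix.exists_vecMul_eq_zero_iff] at h5
  obtain ⟨u, hu, h6⟩ := h5
  have h7 : (u ᵥ* Q) ᵥ* (D * (1 + s • x) - z • (1 : Matrix (Fin m) (Fin m) ℂ)) = 0 := by
    have h8 : Q * (D * (1 + s • x) - z • (1 : Matrix (Fin m) (Fin m) ℂ)) =
        (D₁ + s • (D₁ * x₁) - z • (1 : Matrix (Fin r) (Fin r) ℂ)) * Q := by
      rw [Matrix.mul_sub, Matrix.sub_mul, h4, Matrix.mul_smul, Matrix.mul_one, Matrix.smul_mul,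
        Matrix.one_mul]
    rw [Matrix.vecMul_vecMul, h8, ← Matrix.vecMul_vecMul, h6, Matrix.zero_vecMul]
  have h8 : u ᵥ* Q ≠ 0 := by
    intro h9
    apply hu
    have h10 : (u ᵥ* Q) ᵥ* Q' = 0 := by rw [h9, Matrix.zero_vecMul]
    rwa [Matrix.vecMul_vecMul, hQ, Matrix.vecMul_one] at h10
  have h9 : (D * (1 + s • x) - z • (1 : Matrix (Fin m) (Fin m) ℂ)).det = 0 := by
    rw [← Matrix.exists_vecMul_eq_zero_iff]
    exact ⟨_, h8, h7⟩
  rw [← Matrix.exists_mulVec_eq_zero_iff] at h9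
  obtain ⟨w, hw, h10⟩ := h9
  refine h s z w hw ?_
  rw [Matrix.sub_mulVec, Matrix.smul_mulVec, Matrix.one_mulVec, sub_eq_zero] at h10
  exact h10

/-- Equal products of linear factors. -/
theorem perm_of_prod {r : ℕ} {f g : Fin r → ℂ}
    (h : ∏ j, (Polynomial.X - Polynomial.C (f j)) = ∏ j, (Polynomial.X - Polynomial.C (g j))) :
    ∃ π : Equiv.Perm (Fin r), ∀ j, f j = g (π j) := by
  have h0 : ∀ f : Fin r → ℂ, (∏ j, (Polynomial.X - Polynomial.C (f j))).roots =
      (Finset.univ : Finset (Fin r)).val.map f := by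
    intro f
    have h1 : (∏ j, (Polynomial.X - Polynomial.C (f j))) =
        (((Finset.univ : Finset (Fin r)).val.map f).map
          fun a => Polynomial.X - Polynomial.C a).prod := by
      rw [Multiset.map_map]
      rfl
    rw [h1, Polynomial.roots_multiset_prod_X_sub_C]
  have h2 : (Finset.univ : Finset (Fin r)).val.map f = (Finset.univ : Finset (Fin r)).val.map g := by
    rw [← h0, ← h0, h]
  have h3 : ∀ (f : Fin r → ℂ) (c : ℂ), Fintype.card {j // f j = c} =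
      ((Finset.univ : Finset (Fin r)).val.map f).count c := by
    intro f c
    rw [Multiset.count_map, Fintype.card_subtype]
    rw [Finset.card_def, Finset.filter_val]
    congr 1
    refine Multiset.filter_congr fun x _ => ?_
    exact eq_comm
  have h4 : ∀ c : ℂ, Nonempty ({j // f j = c} ≃ {j // g j = c}) := by
    intro c
    refine ⟨Fintype.equivOfCardEq ?_⟩
    rw [h3, h3, h2]
  refine ⟨Equiv.ofFiberEquiv fun c => (h4 c).some, fun j => ?_⟩
  exact (Equiv.ofFiberEquiv_map (fun c => (h4 c).some) j).symm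

private theorem Cps_eval {r : ℕ} (A : Matrix (Fin r) (Fin r) ℂ) (z χ : ℂ) (hχ : χ ≠ 0) :
    (χ • A).charpoly.eval z = χ ^ r * A.charpoly.eval (z / χ) := by
  rw [Matrix.eval_charpoly, Matrix.eval_charpoly]
  have h1 : Matrix.scalar (Fin r) z - χ • A = χ • (Matrix.scalar (Fin r) (z / χ) - A) := by
    rw [smul_sub]
    congr 1
    ext i j
    rw [Matrix.smul_apply, Matrix.scalar_apply, Matrix.scalar_apply, Matrix.diagonal_apply,
      Matrix.diagonal_apply]
    split_ifs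
    · rw [smul_eq_mul]
      field_simp
    · rw [smul_zero]
  rw [h1, Matrix.det_smul, Fintype.card_fin]

/-- The characteristic polynomial of a conjugate of a multiple. -/
theorem cp_conj {r : ℕ} {B D₁ E : Matrix (Fin r) (Fin r) ℂ} {f g : Fin r → ℂ} {χ : ℂ}
    (hχ : χ ≠ 0) (hB : B.det ≠ 0) (h : B * Matrix.diagonal f = χ • (E * B))
    (hE : E.charpoly = (Matrix.diagonal g).charpoly) :
    ∃ π : Equiv.Perm (Fin r), ∀ j, f j = χ * g (π j) := by
  have h1 : (Matrix.diagonal f).charpoly = (χ • E).charpoly := by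
    refine Polynomial.funext fun z => ?_
    rw [Matrix.eval_charpoly, Matrix.eval_charpoly]
    have h2 : B * (Matrix.scalar (Fin r) z - Matrix.diagonal f) =
        (Matrix.scalar (Fin r) z - χ • E) * B := by
      rw [Matrix.mul_sub, Matrix.sub_mul, h, Matrix.smul_mul]
      congr 1
      exact (Matrix.scalar_commute z (fun _ => mul_comm _ _) B).symm.eq
    have h3 : B.det * (Matrix.scalar (Fin r) z - Matrix.diagonal f).det =
        B.det * (Matrix.scalar (Fin r) z - χ • E).det := by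
      rw [← Matrix.det_mul, h2, Matrix.det_mul, mul_comm]
    exact mul_left_cancel₀ hB h3
  have h4 : (χ • E).charpoly = (Matrix.diagonal fun j => χ * g j).charpoly := by
    refine Polynomial.funext fun z => ?_
    have h5 : (Matrix.diagonal fun j => χ * g j) = χ • Matrix.diagonal g := by
      rw [← Matrix.diagonal_smul]
      rfl
    rw [h5, Cps_eval E z χ hχ, Cps_eval _ z χ hχ, hE]
  refine perm_of_prod (g := fun j => χ * g j) ?_
  rw [← Matrix.charpoly_diagonal, ← Matrix.charpoly_diagonal, h1, h4]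

end PadDet.Eq
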