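import Pool.Agent.H.MP_d7db32_ag.Eq.M.Grd2

/-!
# MP_d7db32_ag, Eq/M/Eic: the eigenvalues are in a countable set (compare `cp_const` in L/Cpc)

`D_s = diagonal (mon t w') (1 + s x)`, `C_s = diagonal (mon t w) (1 + s y)` are a morphism over
`tor (t ^ n)` for all `s` (`zt_mor`, `hxy`), `n = 2 k + 1`. `exists_eig`, `lab_one` with `p` = class modulo `z ~ mon t ω * z`: all
eigenvalues of `C_s` (and of `D_s`) are `mon t ω * z` for each of them, `z`. The determinant is the product of the roots of the characteristic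
polynomial (`Matrix.det_eq_prod_roots_charpoly`), all roots are eigenvalues, so `det C_s = mon t ω * z ^ m`; and
`det C_s = ∏ mon t (w a) * det (1 + s y)`, `det (1 + s y) = 1` (nilpotent). So every eigenvalue `z` of `C_s` is in
`S = {z | ∃ ω, z ^ m = mon t ω}`, which is countable (`m ≠ 0`). The same for `D_s`.
-/

set_option autoImplicit false

namespace PadDet.Eq

open Matrix Polynomial

variable {k m : ℕ} {c : ℂ} {L : Matrix (Fin m) (Fin m) ℂ}
  {M : Matrix (Fin (2 * k + 1)) (Fin (2 * k + 1)) ℂ →ₗ[ℂ] Matrix (Fin m) (Fin m) ℂ}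
  {w w' : Fin m → Fin (2 * k + 1) → ℤ} {s₀ : ℤ} {t : Fin (2 * k + 1) → ℂ}

private theorem Eic_det {N : Matrix (Fin m) (Fin m) ℂ} (hN : IsNilpotent N) :
    (1 + N).det = 1 := by
  have h1 := Matrix.isNilpotent_charpoly_sub_pow_of_isNilpotent (M := -N) hN.neg
  have h2 : (-N).charpoly = X ^ m := by
    have := h1.eq_zero
    rw [sub_eq_zero, Fintype.card_fin] at this
    exact this
  have h3 := Matrix.eval_charpoly (-N) 1
  rw [h2, eval_pow, eval_X, one_pow, map_one, sub_neg_eq_add] at h3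
  exact h3.symm

private theorem Eic_prod {z : ℂ} (ht : ∀ i, t i ≠ 0) (R : Multiset ℂ)
    (h : ∀ r ∈ R, ∃ ω, r = mon t ω * z) : ∃ ω, R.prod = mon t ω * z ^ Multiset.card R := by
  induction R using Multiset.induction_on with
  | empty => exact ⟨0, by rw [mon_zero]; simp⟩
  | cons r R ih =>
    obtain ⟨ω, hω⟩ := ih fun r hr => h r (Multiset.mem_cons_of_mem hr)
    obtain ⟨ω', hω'⟩ := h r (Multiset.mem_cons_self r R)
    refine ⟨ω' + ω, ?_⟩
    rw [Multiset.prod_cons, Multiset.card_cons, hω, hω', mon_add ht]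
    ring

private theorem Eic_mem (ht : ∀ i, t i ≠ 0) (A : Matrix (Fin m) (Fin m) ℂ)
    {Ω : Fin (2 * k + 1) → ℤ} (hdet : A.det = mon t Ω)
    (hcl : ∀ (r r' : ℂ) (v v' : Fin m → ℂ), v ≠ 0 → v' ≠ 0 → A *ᵥ v = r • v →
      A *ᵥ v' = r' • v' → ∃ ω, r' = mon t ω * r) {z : ℂ} {v : Fin m → ℂ} (hv : v ≠ 0)
    (h : A *ᵥ v = z • v) : ∃ ω : Fin (2 * k + 1) → ℤ, z ^ m = mon t ω := by
  have hroot : ∀ r ∈ A.charpoly.roots, ∃ ω, r = mon t ω * z := by
    intro r hr
    have h1 : A.charpoly.eval r = 0 := (Polynomial.mem_roots'.1 hr).2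
    rw [Matrix.eval_charpoly] at h1
    obtain ⟨v', hv', h2⟩ := Matrix.exists_mulVec_eq_zero_iff.2 h1
    refine hcl z r v v' hv hv' h ?_
    rw [Matrix.sub_mulVec, sub_eq_zero] at h2
    rw [← h2]
    ext a
    simp [Matrix.scalar_apply, Matrix.mulVec_diagonal]
  obtain ⟨ω, hω⟩ := Eic_prod ht _ hroot
  rw [← Matrix.det_eq_prod_roots_charpoly, IsAlgClosed.card_roots_eq_natDegree,
    Matrix.charpoly_natDegree_eq_dim, Fintype.card_fin, hdet] at hω
  refine ⟨Ω + -ω, ?_⟩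
  rw [mon_add ht, mon_neg ht, hω]
  have := mon_ne ht ω
  field_simp

private theorem Eic_ctb (hm : m ≠ 0) :
    {z : ℂ | ∃ ω : Fin (2 * k + 1) → ℤ, z ^ m = mon t ω}.Countable := by
  have h : {z : ℂ | ∃ ω : Fin (2 * k + 1) → ℤ, z ^ m = mon t ω} =
      ⋃ ω : Fin (2 * k + 1) → ℤ, {z : ℂ | z ^ m = mon t ω} := by
    ext z
    simp
  rw [h]
  refine Set.countable_iUnion fun ω => Set.Finite.countable ?_
  refine ((Polynomial.nthRoots m (mon t ω)).toFinset.finite_toSet).subset ?_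
  intro z hz
  rw [Finset.mem_coe, Multiset.mem_toFinset, Polynomial.mem_nthRoots (Nat.pos_of_ne_zero hm)]
  exact hz

private theorem Eic_mor (hG : Zt (2 * k + 1) m c L M w w' s₀) (ht : ∀ i, t i ≠ 0)
    (ht1 : ∏ i, t i = 1) {x y : Matrix (Fin m) (Fin m) ℂ} (hxy : Mor L M id x y) (s : ℂ) :
    ((Matrix.diagonal fun b => mon t (w' b)) * (1 + s • x)) * L =
        L * ((Matrix.diagonal fun a => mon t (w a)) * (1 + s • y)) ∧
      ∀ i j, ((Matrix.diagonal fun b => mon t (w' b)) * (1 + s • x)) * M (Matrix.single i j 1) =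
        (t i ^ (2 * k + 1) * t j ^ (2 * k + 1)) • (M (Matrix.single i j 1) *
          ((Matrix.diagonal fun a => mon t (w a)) * (1 + s • y))) := by
  obtain ⟨a0, a1⟩ := mor_tor.1 (zt_mor hG ht ht1)
  obtain ⟨b0, b1⟩ := mor_id.1 hxy
  refine ⟨?_, fun i j => ?_⟩
  · have e : (1 + s • x) * L = L * (1 + s • y) := by
      rw [Matrix.add_mul, Matrix.mul_add, Matrix.one_mul, Matrix.mul_one, Matrix.smul_mul,
        Matrix.mul_smul, b0]
    rw [Matrix.mul_assoc, e, ← Matrix.mul_assoc, a0, Matrix.mul_assoc]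
  · have e : (1 + s • x) * M (Matrix.single i j 1) = M (Matrix.single i j 1) * (1 + s • y) := by
      rw [Matrix.add_mul, Matrix.mul_add, Matrix.one_mul, Matrix.mul_one, Matrix.smul_mul,
        Matrix.mul_smul, b1]
    rw [Matrix.mul_assoc, e, ← Matrix.mul_assoc, a1, Matrix.smul_mul, Matrix.mul_assoc]

/-- The class of `z`. -/
private def Eic_p (t : Fin (2 * k + 1) → ℂ) (z : ℂ) : Set ℂ :=
  {u | ∃ ω : Fin (2 * k + 1) → ℤ, u = mon t ω * z}

private theorem Eic_single (i : Fin (2 * k + 1)) (n : ℕ) :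
    mon t (Pi.single i (n : ℤ)) = t i ^ n := by
  unfold mon
  rw [Finset.prod_eq_single i]
  · rw [Pi.single_eq_same, zpow_natCast]
  · intro j _ hj
    rw [Pi.single_eq_of_ne hj, zpow_zero]
  · intro h
    exact absurd (Finset.mem_univ i) h

private theorem Eic_p_mul (ht : ∀ i, t i ≠ 0) (n : ℕ) (i j : Fin (2 * k + 1)) (β : ℂ) :
    Eic_p t (t i ^ n * t j ^ n * β) = Eic_p t β := by
  have hij : mon t (Pi.single i (n : ℤ) + Pi.single j (n : ℤ)) = t i ^ n * t j ^ n := by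
    rw [mon_add ht, Eic_single, Eic_single]
  ext u
  constructor
  · rintro ⟨ω, rfl⟩
    refine ⟨ω + (Pi.single i (n : ℤ) + Pi.single j (n : ℤ)), ?_⟩
    rw [mon_add ht, hij]
    ring
  · rintro ⟨ω, rfl⟩
    refine ⟨ω + -(Pi.single i (n : ℤ) + Pi.single j (n : ℤ)), ?_⟩
    rw [mon_add ht, mon_neg ht, hij]
    have h1 := pow_ne_zero n (ht i)
    have h2 := pow_ne_zero n (ht j)
    field_simp

private theorem Eic_p_eq {z z' : ℂ} (h : Eic_p t z = Eic_p t z') : ∃ ω, z' = mon t ω * z := by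
  have h1 : z' ∈ Eic_p t z' := ⟨0, by rw [mon_zero, one_mul]⟩
  rw [← h] at h1
  exact h1

private theorem Eic_monprod (ht : ∀ i, t i ≠ 0) (u : Fin m → Fin (2 * k + 1) → ℤ) :
    ∏ a, mon t (u a) = mon t (∑ a, u a) := by
  induction (Finset.univ : Finset (Fin m)) using Finset.induction_on with
  | empty => rw [Finset.prod_empty, Finset.sum_empty, mon_zero]
  | insert a S ha ih => rw [Finset.prod_insert ha, Finset.sum_insert ha, mon_add ht, ih]

theorem eig_ctb (hG : Zt (2 * k + 1) m c L M w w' s₀) (hP : Prim L M) (ht : Gen1 t)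
    (hm : m ≠ 0) {x y : Matrix (Fin m) (Fin m) ℂ} (hxy : Mor L M id x y) (hx : x ^ m = 0)
    (hy : y ^ m = 0) :
    ∃ S : Set ℂ, S.Countable ∧
      (∀ (s z : ℂ) (v : Fin m → ℂ), v ≠ 0 →
        ((Matrix.diagonal fun a => mon t (w a)) * (1 + s • y)) *ᵥ v = z • v → z ∈ S) ∧
      ∀ (s z : ℂ) (v : Fin m → ℂ), v ≠ 0 →
        ((Matrix.diagonal fun b => mon t (w' b)) * (1 + s • x)) *ᵥ v = z • v → z ∈ S := by
  have h0 : ∀ i, t i ≠ 0 := ht.1
  have hnil : ∀ (N : Matrix (Fin m) (Fin m) ℂ) (s : ℂ), N ^ m = 0 → IsNilpotent (s • N) :=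
    fun N s hN => ⟨m, by rw [_root_.smul_pow, hN, smul_zero]⟩
  have hdet : ∀ (N : Matrix (Fin m) (Fin m) ℂ) (s : ℂ) (u : Fin m → Fin (2 * k + 1) → ℤ),
      N ^ m = 0 → ((Matrix.diagonal fun a => mon t (u a)) * (1 + s • N)).det =
        mon t (∑ a, u a) := by
    intro N s u hN
    rw [Matrix.det_mul, Matrix.det_diagonal, Eic_det (hnil N s hN), mul_one, Eic_monprod h0]
  -- the classes of the eigenvalues
  have hcls : ∀ s : ℂ, ∃ p₀ : Set ℂ,
      (∀ (r : ℂ) (v : Fin m → ℂ), v ≠ 0 →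
        ((Matrix.diagonal fun a => mon t (w a)) * (1 + s • y)) *ᵥ v = r • v → Eic_p t r = p₀) ∧
      (∀ (r : ℂ) (v : Fin m → ℂ), v ≠ 0 →
        ((Matrix.diagonal fun b => mon t (w' b)) * (1 + s • x)) *ᵥ v = r • v →
          Eic_p t r = p₀) := by
    intro s
    obtain ⟨m0, m1⟩ := Eic_mor hG h0 ht.2.1 hxy s
    obtain ⟨S, S', β, EC⟩ := exists_eig ((Matrix.diagonal fun a => mon t (w a)) * (1 + s • y))
    obtain ⟨T, T', α, ED⟩ := exists_eig ((Matrix.diagonal fun b => mon t (w' b)) * (1 + s • x))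
    obtain ⟨p₀, hβ, hα⟩ := lab_one hG.c0 hG.det hP (Eic_p t)
      (z := fun i j => t i ^ (2 * k + 1) * t j ^ (2 * k + 1))
      (fun i j β => Eic_p_mul h0 (2 * k + 1) i j β) m0 m1 EC ED
    refine ⟨p₀, fun r v hv h => ?_, fun r v hv h => ?_⟩
    · obtain ⟨a, rfl⟩ := eig_root EC hv h
      exact hβ a
    · obtain ⟨a, rfl⟩ := eig_root ED hv h
      exact hα a
  refine ⟨{z : ℂ | ∃ ω : Fin (2 * k + 1) → ℤ, z ^ m = mon t ω}, Eic_ctb hm, ?_, ?_⟩
  · intro s z v hv h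
    obtain ⟨p₀, hp, -⟩ := hcls s
    exact Eic_mem h0 _ (hdet y s w hy) (fun r r' v v' hv hv' hr hr' =>
      Eic_p_eq ((hp r v hv hr).trans (hp r' v' hv' hr').symm)) hv h
  · intro s z v hv h
    obtain ⟨p₀, -, hp⟩ := hcls s
    exact Eic_mem h0 _ (hdet x s w' hx) (fun r r' v v' hv hv' hr hr' =>
      Eic_p_eq ((hp r v hv hr).trans (hp r' v' hv' hr').symm)) hv h

end PadDet.Eq
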