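import Pool.Agent.H.MP_d7db32_ag.Eq.M.Chi2
import Pool.Agent.H.MP_d7db32_ag.Eq.M.Cps
import Pool.Agent.H.MP_d7db32_ag.Eq.M.Eic

/-!
# MP_d7db32_ag, Eq/M/Sta2: the weights of the columns, of the kernel and of the left kernel

`exists_kb`: weight components of kernel vectors are kernel vectors; a maximal independent set of kernel vectors with weights (the
weight vectors span the kernel). `rk`: rank and nullity.
`sta2`: `chi2`; `eig_ctb`. Columns: `cp_sub` with `P = 1`, `cp_conj` with `E = V (1 + y)`: `π` with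
`mon t (fun i => w a (σ i)) = χ * mon t (w (π a))`. Kernel: `P` = matrix with the columns `v j`, `P'` a left inverse; `V P = P V₁` with
`V₁ = diagonal (mon t (u j))` (`wt`), `Vσ P = P V₁σ`; `y P = P y₁` and `B P = P B₁` with `y₁ = P' y P`, `B₁ = P' B P`, because `y` and `B` map the kernel of `L` to itself (`Mor.zero`: `x L = L y`,
`A L = L B`), `det B₁ ≠ 0` (injective); from the equation for `B`: `B₁ V₁σ = χ V₁ (1 + y₁) B₁`; `cp_sub`, `cp_conj`. Left kernel: `Q` = matrix with the rows `v' j`, `Q'` a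
right inverse; `Q W = W₁ Q`; `Q x = x₁ Q`, `Q A = A₁ Q` (`v' ᵥ* L = 0` gives `(v' ᵥ* A) ᵥ* L = v' ᵥ* (L B) = 0`); `cp_quo`, `cp_conj`.
The same `χ` in all three cases. Since `mon t (x) = χ mon t (y)` for two pairs `(x, y)` of vectors with sum `s₀` implies that the differences `x - y` differ by a constant
(`Gen1`) and have sum `0`, they are equal: `δ = - (x - y)`. (`m ≠ 0` gives one pair.)
-/

set_option autoImplicit false

namespace PadDet.Eq

open Matrix

variable {k m : ℕ} {c : ℂ} {L : Matrix (Fin m) (Fin m) ℂ}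
  {M : Matrix (Fin (2 * k + 1)) (Fin (2 * k + 1)) ℂ →ₗ[ℂ] Matrix (Fin m) (Fin m) ℂ}
  {w w' : Fin m → Fin (2 * k + 1) → ℤ} {s₀ : ℤ} {t : Fin (2 * k + 1) → ℂ}

private theorem Sta2_comp {n : ℕ} {L : Matrix (Fin m) (Fin m) ℂ} {w w' : Fin m → Fin n → ℤ}
    (gL : ∀ b a, L b a ≠ 0 → w' b = w a) {x : Fin m → ℂ} (hx : L *ᵥ x = 0) (u : Fin n → ℤ) :
    L *ᵥ (fun a => if w a = u then x a else 0) = 0 := by
  ext b
  have h1 := congrFun hx b
  simp only [Matrix.mulVec, dotProduct, Pi.zero_apply] at h1 ⊢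
  by_cases h : w' b = u
  · rw [← h1]
    refine Finset.sum_congr rfl fun a _ => ?_
    by_cases h2 : L b a = 0
    · rw [h2, zero_mul, zero_mul]
    · rw [if_pos ((gL b a h2).symm.trans h)]
  · refine Finset.sum_eq_zero fun a _ => ?_
    by_cases h2 : L b a = 0
    · rw [h2, zero_mul]
    · rw [if_neg (fun h3 => h ((gL b a h2).trans h3)), mul_zero]

theorem exists_kb {n : ℕ} {L : Matrix (Fin m) (Fin m) ℂ} {w w' : Fin m → Fin n → ℤ}
    (gL : ∀ b a, L b a ≠ 0 → w' b = w a) :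
    ∃ (r : ℕ) (v : Fin r → Fin m → ℂ) (u : Fin r → Fin n → ℤ),
      Kb m r L w v u ∧ m = L.rank + r := by
  classical
  obtain ⟨b, hbT, hspan, hli⟩ := exists_linearIndependent ℂ
    {x : Fin m → ℂ | L *ᵥ x = 0 ∧ ∃ u : Fin n → ℤ, ∀ a, x a ≠ 0 → w a = u}
  have hbf : b.Finite := hli.setFinite
  have : Fintype b := hbf.fintype
  have hT : ∀ x, L *ᵥ x = 0 → x ∈ Submodule.span ℂ
      {x : Fin m → ℂ | L *ᵥ x = 0 ∧ ∃ u : Fin n → ℤ, ∀ a, x a ≠ 0 → w a = u} := by
    intro x hx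
    have e : x = ∑ u ∈ Finset.univ.image w, (fun a => if w a = u then x a else 0) := by
      ext a
      rw [Finset.sum_apply, Finset.sum_eq_single (w a)]
      · rw [if_pos rfl]
      · intro u _ hu
        rw [if_neg (Ne.symm hu)]
      · intro h
        exact absurd (Finset.mem_image_of_mem w (Finset.mem_univ a)) h
    rw [e]
    refine Submodule.sum_mem _ fun u _ => Submodule.subset_span ⟨Sta2_comp gL hx u, u, ?_⟩
    intro a ha
    by_contra h
    exact ha (if_neg h)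
  let e := Fintype.equivFin b
  let v : Fin (Fintype.card b) → Fin m → ℂ := fun j => (e.symm j : Fin m → ℂ)
  have hv : ∀ j, v j ∈ {x : Fin m → ℂ | L *ᵥ x = 0 ∧ ∃ u : Fin n → ℤ, ∀ a, x a ≠ 0 → w a = u} :=
    fun j => hbT (e.symm j).2
  choose u hu using fun j => (hv j).2
  have hind : LinearIndependent ℂ v := hli.comp _ e.symm.injective
  have hrange : Set.range v = b := by
    ext x
    constructor
    · rintro ⟨j, rfl⟩
      exact (e.symm j).2
    · intro hx
      exact ⟨e ⟨x, hx⟩, by show (e.symm (e ⟨x, hx⟩) : Fin m → ℂ) = x; rw [Equiv.symm_apply_apply]⟩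
  refine ⟨Fintype.card b, v, u, ⟨hind, fun j => (hv j).1, hu, ?_⟩, ?_⟩
  · intro x hx
    have h1 : x ∈ Submodule.span ℂ (Set.range v) := by
      rw [hrange, hspan]
      exact hT x hx
    obtain ⟨ξ, hξ⟩ := (Submodule.mem_span_range_iff_exists_fun ℂ).1 h1
    exact ⟨ξ, hξ.symm⟩
  · have h1 : Submodule.span ℂ (Set.range v) = LinearMap.ker L.mulVecLin := by
      apply le_antisymm
      · rw [Submodule.span_le]
        rintro _ ⟨j, rfl⟩
        exact (hv j).1
      · intro x hx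
        rw [hrange, hspan]
        exact hT x hx
    have h2 := finrank_span_eq_card hind
    rw [h1, Fintype.card_fin] at h2
    have h3 := L.mulVecLin.finrank_range_add_finrank_ker
    rw [h2, Module.finrank_fin_fun] at h3
    exact h3.symm

/-- The matrix of a basis of the kernel. -/
private theorem Sta2_mat {n r : ℕ} {L : Matrix (Fin m) (Fin m) ℂ} {w : Fin m → Fin n → ℤ}
    {v : Fin r → Fin m → ℂ} {u : Fin r → Fin n → ℤ} (hK : Kb m r L w v u) :
    ∃ (P : Matrix (Fin m) (Fin r) ℂ) (P' : Matrix (Fin r) (Fin m) ℂ), P' * P = 1 ∧ L * P = 0 ∧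
      (∀ a j, P a j ≠ 0 → w a = u j) ∧
      ∀ C A' : Matrix (Fin m) (Fin m) ℂ, A' * L = L * C → C * P = P * (P' * C * P) := by
  let P : Matrix (Fin m) (Fin r) ℂ := Matrix.of fun a j => v j a
  have hcol : ∀ ξ : Fin r → ℂ, P *ᵥ ξ = ∑ j, ξ j • v j := by
    intro ξ
    ext a
    rw [Finset.sum_apply]
    show ∑ j, v j a * ξ j = _
    exact Finset.sum_congr rfl fun j _ => mul_comm _ _
  have hinj : Function.Injective P.mulVecLin := by
    rw [injective_iff_map_eq_zero]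
    intro ξ hξ
    have h1 : P *ᵥ ξ = 0 := hξ
    rw [hcol] at h1
    funext j
    exact Fintype.linearIndependent_iff.1 hK.ind ξ h1 j
  obtain ⟨g, hg⟩ := LinearMap.exists_leftInverse_of_injective P.mulVecLin
    (LinearMap.ker_eq_bot.2 hinj)
  have hP' : LinearMap.toMatrix' g * P = 1 := by
    have h1 := congrArg LinearMap.toMatrix' hg
    rw [LinearMap.toMatrix'_comp, LinearMap.toMatrix'_id] at h1
    have h2 : LinearMap.toMatrix' P.mulVecLin = P := by
      rw [← Matrix.toLin'_apply', LinearMap.toMatrix'_toLin']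
    rwa [h2] at h1
  have hLP : L * P = 0 := by
    ext b j
    have h1 := congrFun (hK.ker j) b
    exact h1
  refine ⟨P, LinearMap.toMatrix' g, hP', hLP, fun a j h => hK.wt j a h, ?_⟩
  intro C A' hC
  have h1 : L * (C * P) = 0 := by
    rw [← Matrix.mul_assoc, ← hC, Matrix.mul_assoc, hLP, Matrix.mul_zero]
  have h2 : ∀ j, ∃ ξ : Fin r → ℂ, (fun a => (C * P) a j) = ∑ i, ξ i • v i := by
    intro j
    refine hK.span _ ?_
    ext b
    exact congrFun (congrFun h1 b) j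
  choose ξ hξ using h2
  have h3 : C * P = P * Matrix.of fun i j => ξ j i := by
    ext a j
    have h4 := congrFun (hξ j) a
    rw [← hcol] at h4
    exact h4
  rw [Matrix.mul_assoc, h3, ← Matrix.mul_assoc (LinearMap.toMatrix' g), hP', Matrix.one_mul]

/-- The part on the kernel. -/
private theorem Sta2_ker {n r : ℕ} {L : Matrix (Fin m) (Fin m) ℂ} {w : Fin m → Fin n → ℤ}
    {v : Fin r → Fin m → ℂ} {u : Fin r → Fin n → ℤ} (hK : Kb m r L w v u) {t : Fin n → ℂ}
    {σ : Equiv.Perm (Fin n)} {A B x y : Matrix (Fin m) (Fin m) ℂ} {χ : ℂ} (hχ : χ ≠ 0)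
    (hB : B.det ≠ 0) (hAB : A * L = L * B) (hxy : x * L = L * y)
    (he : B * (Matrix.diagonal fun a => mon t (fun i => w a (σ i))) =
      χ • ((Matrix.diagonal fun a => mon t (w a)) * (1 + y) * B))
    {S : Set ℂ} (hS : S.Countable)
    (h : ∀ (s z : ℂ) (v : Fin m → ℂ), v ≠ 0 →
      ((Matrix.diagonal fun a => mon t (w a)) * (1 + s • y)) *ᵥ v = z • v → z ∈ S) :
    ∃ π : Equiv.Perm (Fin r), ∀ j, mon t (fun i => u j (σ i)) = χ * mon t (u (π j)) := by
  obtain ⟨P, P', hP, hLP, hw, hC⟩ := Sta2_mat hK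
  have e1 : (Matrix.diagonal fun a => mon t (w a)) * P =
      P * Matrix.diagonal fun j => mon t (u j) := by
    ext a j
    rw [Matrix.diagonal_mul, Matrix.mul_diagonal]
    by_cases h0 : P a j = 0
    · rw [h0, mul_zero, zero_mul]
    · rw [hw a j h0, mul_comm]
  have e2 : (Matrix.diagonal fun a => mon t (fun i => w a (σ i))) * P =
      P * Matrix.diagonal fun j => mon t (fun i => u j (σ i)) := by
    ext a j
    rw [Matrix.diagonal_mul, Matrix.mul_diagonal]
    by_cases h0 : P a j = 0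
    · rw [h0, mul_zero, zero_mul]
    · rw [hw a j h0, mul_comm]
  have ey := hC y x hxy
  have eB := hC B A hAB
  set y₁ := P' * y * P with hy₁
  set B₁ := P' * B * P with hB₁
  have hdet : B₁.det ≠ 0 := by
    intro h0
    obtain ⟨z, hz, hz0⟩ := Matrix.exists_mulVec_eq_zero_iff.2 h0
    apply hz
    have h1 : B *ᵥ (P *ᵥ z) = 0 := by
      rw [Matrix.mulVec_mulVec, eB, ← Matrix.mulVec_mulVec, hz0, Matrix.mulVec_zero]
    have h2 : P *ᵥ z = 0 := by
      by_contra h3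
      exact hB (Matrix.exists_mulVec_eq_zero_iff.1 ⟨_, h3, h1⟩)
    have h3 : P' *ᵥ (P *ᵥ z) = z := by
      rw [Matrix.mulVec_mulVec, hP, Matrix.one_mulVec]
    rw [← h3, h2, Matrix.mulVec_zero]
  have ecp := cp_sub hP e1 ey hS h
  have key : B₁ * (Matrix.diagonal fun j => mon t (fun i => u j (σ i))) =
      χ • (((Matrix.diagonal fun j => mon t (u j)) * (1 + y₁)) * B₁) := by
    have h1 : P * (B₁ * Matrix.diagonal fun j => mon t (fun i => u j (σ i))) =
        P * (χ • (((Matrix.diagonal fun j => mon t (u j)) * (1 + y₁)) * B₁)) := by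
      calc P * (B₁ * Matrix.diagonal fun j => mon t (fun i => u j (σ i)))
          = B * (Matrix.diagonal fun a => mon t (fun i => w a (σ i))) * P := by
            rw [← Matrix.mul_assoc, ← eB, Matrix.mul_assoc, ← e2, Matrix.mul_assoc]
        _ = χ • ((Matrix.diagonal fun a => mon t (w a)) * ((1 + y) * (B * P))) := by
            rw [he, Matrix.smul_mul]
            simp only [Matrix.mul_assoc]
        _ = χ • ((Matrix.diagonal fun a => mon t (w a)) * ((P * (1 + y₁)) * B₁)) := by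
            rw [eB, ← Matrix.mul_assoc (1 + y), Matrix.add_mul, Matrix.one_mul, ey,
              Matrix.mul_add, Matrix.mul_one]
        _ = P * (χ • (((Matrix.diagonal fun j => mon t (u j)) * (1 + y₁)) * B₁)) := by
            rw [Matrix.mul_smul, Matrix.mul_assoc P, ← Matrix.mul_assoc _ P, e1]
            simp only [Matrix.mul_assoc]
    have h2 := congrArg (fun Z => P' * Z) h1
    simp only [← Matrix.mul_assoc, hP, Matrix.one_mul] at h2
    simpa only [Matrix.mul_assoc] using h2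
  obtain ⟨π, hπ⟩ := cp_conj (D₁ := 0) hχ hdet key ecp
  exact ⟨π, hπ⟩

/-- The part on the left kernel. -/
private theorem Sta2_coker {n r : ℕ} {L : Matrix (Fin m) (Fin m) ℂ} {w' : Fin m → Fin n → ℤ}
    {v : Fin r → Fin m → ℂ} {u : Fin r → Fin n → ℤ} (hK : Kb m r Lᵀ w' v u) {t : Fin n → ℂ}
    {σ : Equiv.Perm (Fin n)} {A B x y : Matrix (Fin m) (Fin m) ℂ} {χ : ℂ} (hχ : χ ≠ 0)
    (hA : A.det ≠ 0) (hAB : A * L = L * B) (hxy : x * L = L * y)
    (he : A * (Matrix.diagonal fun a => mon t (fun i => w' a (σ i))) =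
      χ • ((Matrix.diagonal fun a => mon t (w' a)) * (1 + x) * A))
    {S : Set ℂ} (hS : S.Countable)
    (h : ∀ (s z : ℂ) (v : Fin m → ℂ), v ≠ 0 →
      ((Matrix.diagonal fun a => mon t (w' a)) * (1 + s • x)) *ᵥ v = z • v → z ∈ S) :
    ∃ π : Equiv.Perm (Fin r), ∀ j, mon t (fun i => u j (σ i)) = χ * mon t (u (π j)) := by
  obtain ⟨P, P', hP, hLP, hw, hC⟩ := Sta2_mat hK
  set Q := Pᵀ with hQ
  set Q' := P'ᵀ with hQ'
  have hQQ : Q * Q' = 1 := by
    rw [hQ, hQ', ← Matrix.transpose_mul, hP, Matrix.transpose_one]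
  have hw' : ∀ j b, Q j b ≠ 0 → w' b = u j := fun j b h0 => hw b j h0
  have e1 : Q * (Matrix.diagonal fun a => mon t (w' a)) =
      (Matrix.diagonal fun j => mon t (u j)) * Q := by
    ext j b
    rw [Matrix.diagonal_mul, Matrix.mul_diagonal]
    by_cases h0 : Q j b = 0
    · rw [h0, mul_zero, zero_mul]
    · rw [hw' j b h0, mul_comm]
  have e2 : Q * (Matrix.diagonal fun a => mon t (fun i => w' a (σ i))) =
      (Matrix.diagonal fun j => mon t (fun i => u j (σ i))) * Q := by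
    ext j b
    rw [Matrix.diagonal_mul, Matrix.mul_diagonal]
    by_cases h0 : Q j b = 0
    · rw [h0, mul_zero, zero_mul]
    · rw [hw' j b h0, mul_comm]
  have hT : ∀ C D : Matrix (Fin m) (Fin m) ℂ, C * L = L * D → Q * C = (Q * C * Q') * Q := by
    intro C D hCD
    have h1 := hC Cᵀ Dᵀ (by rw [← Matrix.transpose_mul, ← Matrix.transpose_mul, hCD])
    have h2 := congrArg Matrix.transpose h1
    rw [Matrix.transpose_mul, Matrix.transpose_mul, Matrix.transpose_mul, Matrix.transpose_mul,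
      Matrix.transpose_transpose, ← hQ, ← hQ'] at h2
    rw [h2]
    simp only [Matrix.mul_assoc]
    rw [← Matrix.mul_assoc Q Q', hQQ, Matrix.one_mul]
  have ex := hT x y hxy
  have eA := hT A B hAB
  set x₁ := Q * x * Q' with hx₁
  set A₁ := Q * A * Q' with hA₁
  have hdet : A₁.det ≠ 0 := by
    intro h0
    obtain ⟨z, hz, hz0⟩ := Matrix.exists_vecMul_eq_zero_iff.2 h0
    apply hz
    have h1 : (z ᵥ* Q) ᵥ* A = 0 := by
      rw [Matrix.vecMul_vecMul, eA, ← Matrix.vecMul_vecMul, hz0, Matrix.zero_vecMul]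
    have h2 : z ᵥ* Q = 0 := by
      by_contra h3
      exact hA (Matrix.exists_vecMul_eq_zero_iff.1 ⟨_, h3, h1⟩)
    have h3 : (z ᵥ* Q) ᵥ* Q' = z := by
      rw [Matrix.vecMul_vecMul, hQQ, Matrix.vecMul_one]
    rw [← h3, h2, Matrix.zero_vecMul]
  have ecp := cp_quo hQQ e1 ex hS h
  have key : A₁ * (Matrix.diagonal fun j => mon t (fun i => u j (σ i))) =
      χ • (((Matrix.diagonal fun j => mon t (u j)) * (1 + x₁)) * A₁) := by
    have h1 : (A₁ * Matrix.diagonal fun j => mon t (fun i => u j (σ i))) * Q =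
        (χ • (((Matrix.diagonal fun j => mon t (u j)) * (1 + x₁)) * A₁)) * Q := by
      calc (A₁ * Matrix.diagonal fun j => mon t (fun i => u j (σ i))) * Q
          = Q * (A * (Matrix.diagonal fun a => mon t (fun i => w' a (σ i)))) := by
            rw [Matrix.mul_assoc, ← e2, ← Matrix.mul_assoc, ← eA, Matrix.mul_assoc]
        _ = χ • ((Q * (Matrix.diagonal fun a => mon t (w' a))) * (1 + x) * A) := by
            rw [he, Matrix.mul_smul]
            simp only [Matrix.mul_assoc]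
        _ = χ • ((Matrix.diagonal fun j => mon t (u j)) * ((1 + x₁) * (Q * A))) := by
            have e3 : Q * (1 + x) = (1 + x₁) * Q := by
              rw [Matrix.mul_add, Matrix.mul_one, ex, Matrix.add_mul, Matrix.one_mul]
            rw [e1, Matrix.mul_assoc _ Q, e3]
            simp only [Matrix.mul_assoc]
        _ = (χ • (((Matrix.diagonal fun j => mon t (u j)) * (1 + x₁)) * A₁)) * Q := by
            rw [eA, Matrix.smul_mul]
            simp only [Matrix.mul_assoc]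
    have h2 := congrArg (fun Z => Z * Q') h1
    simp only [Matrix.mul_assoc, Matrix.smul_mul, hQQ, Matrix.mul_one] at h2
    simpa only [Matrix.mul_assoc] using h2
  obtain ⟨π, hπ⟩ := cp_conj (D₁ := 0) hχ hdet key ecp
  exact ⟨π, hπ⟩

private theorem Sta2_eq {k : ℕ} {t : Fin (2 * k + 1) → ℂ} (ht : Gen1 t) {χ : ℂ}
    {x y x₀ y₀ : Fin (2 * k + 1) → ℤ} (h : mon t x = χ * mon t y)
    (h₀ : mon t x₀ = χ * mon t y₀) (s : ∑ i, x i = ∑ i, y i) (s' : ∑ i, x₀ i = ∑ i, y₀ i)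
    (i : Fin (2 * k + 1)) : y i = x i + (y₀ i - x₀ i) := by
  have h1 : mon t ((x + y₀) + -(x₀ + y)) = 1 := by
    rw [mon_add ht.1, mon_neg ht.1, mon_add ht.1, mon_add ht.1, h, h₀]
    have h2 : χ * mon t y₀ ≠ 0 := by
      rw [← h₀]
      exact mon_ne ht.1 _
    rw [mul_right_comm χ, mul_inv_cancel₀ (mul_ne_zero h2 (mon_ne ht.1 _))]
  have h2 := ht.2.2 _ h1
  have h3 : ∑ j, ((x + y₀) + -(x₀ + y)) j = 0 := by
    simp only [Pi.add_apply, Pi.neg_apply, Finset.sum_add_distrib, Finset.sum_neg_distrib]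
    rw [s, s']
    ring
  have h4 : ∑ j, ((x + y₀) + -(x₀ + y)) j = (2 * k + 1 : ℤ) * ((x + y₀) + -(x₀ + y)) i := by
    rw [Finset.sum_congr rfl fun j _ => h2 j i, Finset.sum_const, Finset.card_univ,
      Fintype.card_fin, nsmul_eq_mul]
    push_cast
    ring
  rw [h3] at h4
  have h5 : ((x + y₀) + -(x₀ + y)) i = 0 := by
    rcases mul_eq_zero.1 h4.symm with h6 | h6
    · exfalso
      omega
    · exact h6
  simp only [Pi.add_apply, Pi.neg_apply] at h5
  linarith

theorem sta2 (hG : Zt (2 * k + 1) m c L M w w' s₀) (hP : Prim L M) (ht : Gen1 t) (hm : m ≠ 0)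
    {r r' : ℕ} {v : Fin r → Fin m → ℂ} {u : Fin r → Fin (2 * k + 1) → ℤ}
    (hK : Kb m r L w v u) {v' : Fin r' → Fin m → ℂ} {u' : Fin r' → Fin (2 * k + 1) → ℤ}
    (hK' : Kb m r' Lᵀ w' v' u')
    {σ : Equiv.Perm (Fin (2 * k + 1))} (hσ : Eqv L M (prm σ)) :
    ∃ δ : Fin (2 * k + 1) → ℤ,
      (∃ π : Equiv.Perm (Fin m), ∀ a i, w (π a) i = w a (σ i) + δ i) ∧
      (∃ π : Equiv.Perm (Fin r), ∀ j i, u (π j) i = u j (σ i) + δ i) ∧
      ∃ π : Equiv.Perm (Fin r'), ∀ j i, u' (π j) i = u' j (σ i) + δ i := by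
  obtain ⟨χ, A, B, x, y, hχ, hA, hB, hAB, hxy, hx, hy, e1, e2⟩ := chi2 hG hP ht hm hσ
  obtain ⟨S, hS, hS1, hS2⟩ := eig_ctb hG hP ht hm hxy hx hy
  have zAB := hAB.zero (prm_zero σ)
  have zxy : x * L = L * y := hxy.zero rfl
  have hc := cp_sub (P := 1) (P' := 1) (D₁ := Matrix.diagonal fun a => mon t (w a)) (y₁ := y)
    (Matrix.one_mul 1) (by rw [Matrix.mul_one, Matrix.one_mul])
    (by rw [Matrix.mul_one, Matrix.one_mul]) hS hS1
  obtain ⟨π, hπ⟩ := cp_conj (D₁ := 0) hχ hB e1 hc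
  obtain ⟨π₁, hπ₁⟩ := Sta2_ker hK hχ hB zAB zxy e1 hS hS1
  obtain ⟨π₂, hπ₂⟩ := Sta2_coker hK' hχ hA zAB zxy e2 hS hS2
  have hsσ : ∀ z : Fin (2 * k + 1) → ℤ, ∑ i, z (σ i) = ∑ i, z i := fun z => Equiv.sum_comp σ z
  have hsu : ∀ j, ∑ i, u j i = s₀ := by
    intro j
    have h1 : v j ≠ 0 := hK.ind.ne_zero j
    obtain ⟨a, ha⟩ := Function.ne_iff.1 h1
    rw [← hK.wt j a ha]
    exact hG.sm a
  have hsu' : ∀ j, ∑ i, u' j i = s₀ := by
    intro j
    have h1 : v' j ≠ 0 := hK'.ind.ne_zero j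
    obtain ⟨a, ha⟩ := Function.ne_iff.1 h1
    rw [← hK'.wt j a ha]
    exact hG.sm' a
  let a₀ : Fin m := ⟨0, Nat.pos_of_ne_zero hm⟩
  have key : ∀ {z z' : Fin (2 * k + 1) → ℤ}, mon t (fun i => z (σ i)) = χ * mon t z' →
      ∑ i, z i = s₀ → ∑ i, z' i = s₀ → ∀ i, z' i = z (σ i) + (w (π a₀) i - w a₀ (σ i)) := by
    intro z z' h1 h2 h3 i
    refine Sta2_eq ht (x := fun i => z (σ i)) (x₀ := fun i => w a₀ (σ i)) h1 (hπ a₀) ?_ ?_ i
    · rw [hsσ, h2, h3]
    · rw [hsσ, hG.sm, hG.sm]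
  refine ⟨fun i => w (π a₀) i - w a₀ (σ i), ⟨π, fun a i => ?_⟩, ⟨π₁, fun j i => ?_⟩,
    ⟨π₂, fun j i => ?_⟩⟩
  · exact key (hπ a) (hG.sm a) (hG.sm _) i
  · exact key (hπ₁ j) (hsu j) (hsu _) i
  · exact key (hπ₂ j) (hsu' j) (hsu' _) i

end PadDet.Eq
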