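import Pool.Agent.H.MP_d7db32_ag.Eq.M.Pwf
import Pool.Agent.H.MP_d7db32_ag.Eq.M.Sta2
import Pool.Agent.H.MP_d7db32_ag.Eq.M.KerA2
import Pool.Agent.H.MP_d7db32_ag.Eq.M.Cy1
import Pool.Agent.H.MP_d7db32_ag.Eq.M.Cy2
import Pool.Agent.H.MP_d7db32_ag.Eq.M.Cy3
import Pool.Agent.H.MP_d7db32_ag.Eq.M.Gex2

/-!
# MP_d7db32_ag, Eq/M/Asm2: the bound

`m' ≠ 0`: for `m' = 0` the determinant is `1`, but `F 0 = 0`. `k = 0`: `1 ≤ m'`.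
`exists_primf`, `grd2`, `exists_kb` for `L'` and `L'ᵀ` (rank of the transposed matrix), `sta2`, `shf2`, `ker_const`, `eqm`, `sing`, `cy2`, `cy3` with `θ = ρ.trans π.symm`.
`low_sl0`: `t` from `exists_gen1`.
-/

set_option autoImplicit false

namespace PadDet.Eq

open Matrix

variable {k m : ℕ} {c : ℂ} {L : Matrix (Fin m) (Fin m) ℂ}
  {M : Matrix (Fin (2 * k + 1)) (Fin (2 * k + 1)) ℂ →ₗ[ℂ] Matrix (Fin m) (Fin m) ℂ}
  {t : Fin (2 * k + 1) → ℂ}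

private theorem Asm2_ne {m' : ℕ} {c' : ℂ} {L' : Matrix (Fin m') (Fin m') ℂ}
    {M' : Matrix (Fin (2 * k + 1)) (Fin (2 * k + 1)) ℂ →ₗ[ℂ] Matrix (Fin m') (Fin m') ℂ}
    (h : Pwf (2 * k + 1) m' c' L' M' t) : m' ≠ 0 := by
  intro h0
  subst h0
  have h1 := h.det 0
  have h2 : Fv (0 : Matrix (Fin (2 * k + 1)) (Fin (2 * k + 1)) ℂ) = 0 := by
    have h3 := Fv_smul (Nat.succ_pos (2 * k)) (0 : ℂ)
      (0 : Matrix (Fin (2 * k + 1)) (Fin (2 * k + 1)) ℂ)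
    rw [smul_zero, zero_pow (Nat.succ_ne_zero _), zero_mul] at h3
    exact h3
  rw [h2, mul_zero, Matrix.det_isEmpty] at h1
  exact one_ne_zero h1

private theorem Asm2_prim {m' : ℕ} {c' : ℂ} {L' : Matrix (Fin m') (Fin m') ℂ}
    {M' : Matrix (Fin (2 * k + 1)) (Fin (2 * k + 1)) ℂ →ₗ[ℂ] Matrix (Fin m') (Fin m') ℂ}
    (hk : 1 ≤ k) (h : Pwf (2 * k + 1) m' c' L' M' t) (hP : Prim L' M') (ht : Gen1 t) :
    2 ^ (2 * k + 1) - 1 ≤ m' := by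
  have hm : m' ≠ 0 := Asm2_ne h
  obtain ⟨c₂, L₂, M₂, w, w', hZ, hP₂, hE⟩ := grd2 h hP ht
  obtain ⟨r, v, u, hK, rk⟩ := exists_kb hZ.gL
  obtain ⟨r', v', u', hK', rk'⟩ :=
    exists_kb (L := L₂ᵀ) (w := w') (w' := w) (fun b a hb => (hZ.gL a b hb).symm)
  rw [Matrix.rank_transpose] at rk'
  obtain ⟨μ, s, hU, hS⟩ := shf2 hm hZ hK hK' rk rk'
    (fun σ => sta2 hZ hP₂ ht hm hK hK' (hE σ))
  obtain ⟨hu, hu'⟩ := ker_const hk hU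
  obtain ⟨π, hπ⟩ := eqm hU hu hu'
  obtain ⟨z, x, hx0, hx, hxz⟩ := sing hU hu
  obtain ⟨ρ, y, a₀, hy, hρ, hc, hz, hy0⟩ := cy2 hk hU.toZt π hπ hx0 hx hxz
  refine cy3 hS (ρ.trans π.symm) y hy (fun a i => ?_) hc hz hy0
  have h1 := congrFun (hπ (π.symm (ρ a))) i
  rw [Equiv.apply_symm_apply] at h1
  rw [Equiv.trans_apply]
  exact h1.symm.trans (hρ a i)

theorem lowS (h : Pwf (2 * k + 1) m c L M t) (ht : Gen1 t) : 2 ^ (2 * k + 1) - 1 ≤ m := by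
  obtain ⟨m', hm', c', L', M', h', hP⟩ := exists_primf h
  refine le_trans ?_ hm'
  rcases Nat.eq_zero_or_pos k with hk | hk
  · subst hk
    have := Asm2_ne h'
    simpa using Nat.one_le_iff_ne_zero.2 this
  · exact Asm2_prim hk h' hP ht

end PadDet.Eq
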