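import Pool.Agent.H.MP_d7db32_ag.Eq.M.Grd2

/-!
# MP_d7db32_ag, Eq/M/Chi2: a permutation and the torus

`(A, B)` from `hσ`. Let `t' = t ∘ σ.symm`, `Vσ = diagonal (mon t' (w a))`; `mon t' (w a) = mon t (fun i => w a (σ i))`
(reindex the product). By `zt_mor` for `t'`: `(Wσ, Vσ)` is a morphism over `tor (t' ^ n)`, so `(A Wσ A⁻¹, B Vσ B⁻¹)` is a morphism over
`tor (t ^ n)`: `prm σ (tor (t' ^ n) X) = tor (t ^ n) (prm σ X)`, and every `X` is `prm σ X'`. With `V = diagonal (mon t (w a))`, `W` (`zt_mor` for `t`; also `V⁻¹`):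
`u = V⁻¹ B Vσ B⁻¹`, `u' = W⁻¹ A Wσ A⁻¹` is an endomorphism, `endo_nil` (L/Lab) gives `χ`; `χ ≠ 0` because `u` is invertible and `m ≠ 0`;
`y = χ⁻¹ u - 1`, `x = χ⁻¹ u' - 1`. Then `B Vσ = V u B = χ V (1 + y) B`.
-/

set_option autoImplicit false

namespace PadDet.Eq

open Matrix

variable {k m : ℕ} {c : ℂ} {L : Matrix (Fin m) (Fin m) ℂ}
  {M : Matrix (Fin (2 * k + 1)) (Fin (2 * k + 1)) ℂ →ₗ[ℂ] Matrix (Fin m) (Fin m) ℂ}
  {w w' : Fin m → Fin (2 * k + 1) → ℤ} {s₀ : ℤ} {t : Fin (2 * k + 1) → ℂ}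

private theorem Chi2_prm_tor {σ : Equiv.Perm (Fin (2 * k + 1))} (t : Fin (2 * k + 1) → ℂ)
    (X : Matrix (Fin (2 * k + 1)) (Fin (2 * k + 1)) ℂ) :
    prm σ (tor (fun i => t (σ.symm i) ^ (2 * k + 1)) X) =
      tor (fun i => t i ^ (2 * k + 1)) (prm σ X) := by
  ext i j
  unfold prm tor
  show t (σ.symm (σ i)) ^ (2 * k + 1) * t (σ.symm (σ j)) ^ (2 * k + 1) * X (σ i) (σ j) =
    t i ^ (2 * k + 1) * t j ^ (2 * k + 1) * X (σ i) (σ j)
  rw [Equiv.symm_apply_apply, Equiv.symm_apply_apply]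

private theorem Chi2_mon_perm {σ : Equiv.Perm (Fin (2 * k + 1))} (t : Fin (2 * k + 1) → ℂ)
    (v : Fin (2 * k + 1) → ℤ) :
    mon (fun i => t (σ.symm i)) v = mon t (fun i => v (σ i)) := by
  unfold mon
  rw [← Equiv.prod_comp σ]
  refine Finset.prod_congr rfl fun i _ => ?_
  show t (σ.symm (σ i)) ^ v (σ i) = t i ^ v (σ i)
  rw [Equiv.symm_apply_apply]

private theorem Chi2_dinv {f : Fin m → ℂ} (hf : ∀ a, f a ≠ 0) :
    Matrix.diagonal f * Matrix.diagonal (fun a => (f a)⁻¹) = 1 ∧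
      Matrix.diagonal (fun a => (f a)⁻¹) * Matrix.diagonal f = 1 := by
  constructor
  · rw [Matrix.diagonal_mul_diagonal]
    have : (fun i => f i * (f i)⁻¹) = fun _ => (1 : ℂ) := by
      funext i
      exact mul_inv_cancel₀ (hf i)
    rw [this, Matrix.diagonal_one]
  · rw [Matrix.diagonal_mul_diagonal]
    have : (fun i => (f i)⁻¹ * f i) = fun _ => (1 : ℂ) := by
      funext i
      exact inv_mul_cancel₀ (hf i)
    rw [this, Matrix.diagonal_one]

theorem chi2 (hG : Zt (2 * k + 1) m c L M w w' s₀) (hP : Prim L M) (ht : Gen1 t) (hm : m ≠ 0)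
    {σ : Equiv.Perm (Fin (2 * k + 1))} (hσ : Eqv L M (prm σ)) :
    ∃ (χ : ℂ) (A B x y : Matrix (Fin m) (Fin m) ℂ), χ ≠ 0 ∧ A.det ≠ 0 ∧ B.det ≠ 0 ∧
      Mor L M (prm σ) A B ∧ Mor L M id x y ∧ x ^ m = 0 ∧ y ^ m = 0 ∧
      B * (Matrix.diagonal fun a => mon t (fun i => w a (σ i))) =
        χ • ((Matrix.diagonal fun a => mon t (w a)) * (1 + y) * B) ∧
      A * (Matrix.diagonal fun b => mon t (fun i => w' b (σ i))) =
        χ • ((Matrix.diagonal fun b => mon t (w' b)) * (1 + x) * A) := by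
  obtain ⟨A, B, hA, hB, hAB⟩ := hσ
  have hA1 : A * A⁻¹ = 1 := Matrix.mul_nonsing_inv A (Ne.isUnit hA)
  have hA2 : A⁻¹ * A = 1 := Matrix.nonsing_inv_mul A (Ne.isUnit hA)
  have hB1 : B * B⁻¹ = 1 := Matrix.mul_nonsing_inv B (Ne.isUnit hB)
  have hB2 : B⁻¹ * B = 1 := Matrix.nonsing_inv_mul B (Ne.isUnit hB)
  obtain ⟨t', ht'⟩ : ∃ t' : Fin (2 * k + 1) → ℂ, t' = fun i => t (σ.symm i) := ⟨_, rfl⟩
  have ht0 : ∀ i, t' i ≠ 0 := fun i => by
    rw [ht']
    exact ht.1 _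
  have ht1 : ∏ i, t' i = 1 := by
    rw [ht', Equiv.prod_comp σ.symm t]
    exact ht.2.1
  have m1 := zt_mor hG ht.1 ht.2.1
  have m2 := zt_mor hG ht0 ht1
  obtain ⟨iW1, iW2⟩ := Chi2_dinv (f := fun b => mon t (w' b)) fun b => mon_ne ht.1 _
  obtain ⟨iV1, iV2⟩ := Chi2_dinv (f := fun a => mon t (w a)) fun a => mon_ne ht.1 _
  have hEVeq : (Matrix.diagonal fun a => mon t' (w a)) =
      Matrix.diagonal fun a => mon t (fun i => w a (σ i)) := by
    congr 1
    funext a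
    rw [ht', Chi2_mon_perm]
  have hEWeq : (Matrix.diagonal fun b => mon t' (w' b)) =
      Matrix.diagonal fun b => mon t (fun i => w' b (σ i)) := by
    congr 1
    funext b
    rw [ht', Chi2_mon_perm]
  have hEVd : (Matrix.diagonal fun a => mon t' (w a)).det ≠ 0 := by
    rw [Matrix.det_diagonal]
    exact Finset.prod_ne_zero_iff.2 fun a _ => mon_ne ht0 _
  rw [← hEVeq, ← hEWeq]
  generalize (Matrix.diagonal fun b => mon t (w' b)) = DW at m1 iW1 iW2 ⊢
  generalize (Matrix.diagonal fun a => mon t (w a)) = DV at m1 iV1 iV2 ⊢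
  generalize (Matrix.diagonal fun b => mon t' (w' b)) = EW at m2 ⊢
  generalize (Matrix.diagonal fun a => mon t' (w a)) = EV at m2 hEVd ⊢
  generalize (Matrix.diagonal fun b => (mon t (w' b))⁻¹) = DW' at iW1 iW2
  generalize (Matrix.diagonal fun a => (mon t (w a))⁻¹) = DV' at iV1 iV2
  obtain ⟨u, hu⟩ : ∃ u, u = DV' * B * EV * B⁻¹ := ⟨_, rfl⟩
  obtain ⟨u', hu'⟩ : ∃ u', u' = DW' * A * EW * A⁻¹ := ⟨_, rfl⟩
  have hmor : Mor L M id u' u := by
    intro X
    have e0 : prm σ (prm σ.symm X) = X := by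
      ext i j
      unfold prm
      rw [Matrix.submatrix_apply, Matrix.submatrix_apply, Equiv.symm_apply_apply,
        Equiv.symm_apply_apply]
    obtain ⟨Y, hY⟩ : ∃ Y, Y = prm σ.symm X := ⟨_, rfl⟩
    rw [← hY] at e0
    have a1 : A * (L + M Y) = (L + M X) * B := by
      have := hAB Y
      rwa [e0] at this
    have a2 : A⁻¹ * (L + M X) = (L + M Y) * B⁻¹ := by
      have : A⁻¹ * (A * (L + M Y)) * B⁻¹ = A⁻¹ * ((L + M X) * B) * B⁻¹ := by rw [a1]
      rw [← Matrix.mul_assoc, hA2, Matrix.one_mul, Matrix.mul_assoc A⁻¹, Matrix.mul_assoc _ B,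
        hB1, Matrix.mul_one] at this
      exact this.symm
    obtain ⟨Z, hZ⟩ : ∃ Z, Z = tor (fun i => t' i ^ (2 * k + 1)) Y := ⟨_, rfl⟩
    obtain ⟨Z', hZ'⟩ : ∃ Z', Z' = tor (fun i => t i ^ (2 * k + 1)) X := ⟨_, rfl⟩
    have a3 : EW * (L + M Y) = (L + M Z) * EV := by
      rw [hZ]
      exact m2 Y
    have a4 : A * (L + M Z) = (L + M Z') * B := by
      have h1 := hAB Z
      have h2 : prm σ Z = Z' := by
        rw [hZ, hZ', ht', Chi2_prm_tor, e0]
      rwa [h2] at h1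
    have a5 : DW * (L + M X) = (L + M Z') * DV := by
      rw [hZ']
      exact m1 X
    have a6 : DW' * (L + M Z') = (L + M X) * DV' := by
      have : DW' * (DW * (L + M X)) * DV' = DW' * ((L + M Z') * DV) * DV' := by rw [a5]
      rw [← Matrix.mul_assoc, iW2, Matrix.one_mul, Matrix.mul_assoc DW', Matrix.mul_assoc _ DV,
        iV1, Matrix.mul_one] at this
      exact this.symm
    show u' * (L + M X) = (L + M X) * u
    calc u' * (L + M X) = DW' * A * EW * (A⁻¹ * (L + M X)) := by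
          rw [hu', Matrix.mul_assoc (DW' * A * EW)]
      _ = DW' * A * (EW * (L + M Y)) * B⁻¹ := by
          rw [a2]
          simp only [Matrix.mul_assoc]
      _ = DW' * (A * (L + M Z)) * EV * B⁻¹ := by
          rw [a3]
          simp only [Matrix.mul_assoc]
      _ = DW' * (L + M Z') * B * EV * B⁻¹ := by
          rw [a4]
          simp only [Matrix.mul_assoc]
      _ = (L + M X) * u := by
          rw [a6, hu]
          simp only [Matrix.mul_assoc]
  obtain ⟨χ, hx, hy⟩ := endo_nil hG.c0 hG.det hP hmor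
  have hdd : ∀ z : ℂ, (Matrix.diagonal fun _ : Fin m => z) = z • (1 : Matrix (Fin m) (Fin m) ℂ) := by
    intro z
    rw [← Matrix.diagonal_one, ← Matrix.diagonal_smul]
    congr 1
    funext i
    simp
  have hDVu : DV * u = B * EV * B⁻¹ := by
    rw [hu, ← Matrix.mul_assoc, ← Matrix.mul_assoc, ← Matrix.mul_assoc, iV1, Matrix.one_mul]
  have hDWu : DW * u' = A * EW * A⁻¹ := by
    rw [hu', ← Matrix.mul_assoc, ← Matrix.mul_assoc, ← Matrix.mul_assoc, iW1, Matrix.one_mul]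
  have hχ : χ ≠ 0 := by
    intro h0
    rw [h0, hdd, zero_smul, sub_zero] at hy
    have h1 : u.det ≠ 0 := by
      have h3 : (B * EV * B⁻¹).det ≠ 0 := by
        rw [Matrix.det_mul, Matrix.det_mul]
        refine mul_ne_zero (mul_ne_zero hB hEVd) ?_
        intro h4
        have h5 := congrArg Matrix.det hB1
        rw [Matrix.det_mul, h4, mul_zero, Matrix.det_one] at h5
        exact zero_ne_one h5
      rw [← hDVu, Matrix.det_mul] at h3
      exact right_ne_zero_of_mul h3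
    have h2 := congrArg Matrix.det hy
    have : Nonempty (Fin m) := ⟨⟨0, Nat.pos_of_ne_zero hm⟩⟩
    rw [Matrix.det_pow, Matrix.det_zero] at h2
    exact pow_ne_zero _ h1 h2
  have key : ∀ v : Matrix (Fin m) (Fin m) ℂ, (v - Matrix.diagonal fun _ => χ) ^ m = 0 →
      (χ⁻¹ • v - 1) ^ m = 0 := by
    intro v hv
    have e : χ⁻¹ • v - 1 = χ⁻¹ • (v - Matrix.diagonal fun _ => χ) := by
      rw [smul_sub, hdd, smul_smul, inv_mul_cancel₀ hχ, one_smul]
    rw [e, _root_.smul_pow, hv, smul_zero]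
  have hmor2 : Mor L M id (χ⁻¹ • u' - 1) (χ⁻¹ • u - 1) := by
    intro X
    have h1 := hmor X
    simp only [id] at h1 ⊢
    rw [Matrix.sub_mul, Matrix.mul_sub, Matrix.smul_mul, Matrix.mul_smul, h1, Matrix.one_mul,
      Matrix.mul_one]
  refine ⟨χ, A, B, χ⁻¹ • u' - 1, χ⁻¹ • u - 1, hχ, hA, hB, hAB, hmor2, key _ hx, key _ hy, ?_, ?_⟩
  · rw [add_sub_cancel, Matrix.mul_smul, Matrix.smul_mul, smul_smul, mul_inv_cancel₀ hχ, one_smul,
      hDVu, Matrix.mul_assoc, hB2, Matrix.mul_one]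
  · rw [add_sub_cancel, Matrix.mul_smul, Matrix.smul_mul, smul_smul, mul_inv_cancel₀ hχ, one_smul,
      hDWu, Matrix.mul_assoc, hA2, Matrix.mul_one]

end PadDet.Eq
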