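import Pool.Agent.H.MP_d7db32_ag.Eq.L.Lab
import Pool.Agent.H.MP_d7db32_ag.Eq.L.Bch
import Pool.Agent.H.MP_d7db32_ag.Eq.M.Bas2

/-!
# MP_d7db32_ag, Eq/M/Grd2: the grading (compare L/Grd)

`(D, C)` from `pT` (`mor_tor`); `exists_eig` for `C` and `D`. `lab_one` with `p` = class in the
quotient of `ℂ` by the relation `z' = mon t ω * z` for some `ω` (a setoid: `mon_zero`, `mon_neg`, `mon_add`;
`t i * t j = mon t (single i 1 + single j 1)`); so all `β a`, `α b` are `mon t (v a) * β₀`, `mon t (v' b) * β₀` with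
one `β₀` (`β₀ ≠ 0` because `det C ≠ 0`, `eig_ev`). Put `w a l = n * v a l - ∑ v a`, `w' b l = n * v' b l - ∑ v' b` (`n = 2 k + 1`): if
`mon t x = mon t y` then `x - y` is constant (`Gen1`) and `n x - ∑ x = n y - ∑ y`. `L' = T' L S`, `M' X = T' (M X) S`, `c' = det T' * c * det S`.
`eig_mor`: `gL` (factor `1`), `gE` (factor `t i * t j`). `base_prim`, `base_eqv` (L/Bch). For `m = 0` everything is trivial.
`zt_mor`: entries; `∏ s l ^ (n * ((if l = i then 1 else 0) + (if l = j then 1 else 0)) - 2) = s i ^ n * s j ^ n` because `∏ s l = 1`; `mor_tor`.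
-/

set_option autoImplicit false

namespace PadDet.Eq

open Matrix

variable {k m : ℕ} {c : ℂ} {L : Matrix (Fin m) (Fin m) ℂ}
  {M : Matrix (Fin (2 * k + 1)) (Fin (2 * k + 1)) ℂ →ₗ[ℂ] Matrix (Fin m) (Fin m) ℂ}
  {t : Fin (2 * k + 1) → ℂ}

private def Grd2_set (t : Fin (2 * k + 1) → ℂ) (ht : ∀ i, t i ≠ 0) : Setoid ℂ where
  r z z' := ∃ ω : Fin (2 * k + 1) → ℤ, z' = mon t ω * z
  iseqv :=
    { refl := fun z => ⟨0, by rw [mon_zero, one_mul]⟩
      symm := by
        rintro z z' ⟨ω, rfl⟩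
        refine ⟨-ω, ?_⟩
        rw [mon_neg ht, ← mul_assoc, inv_mul_cancel₀ (mon_ne ht ω), one_mul]
      trans := by
        rintro z z' z'' ⟨ω, rfl⟩ ⟨ω', rfl⟩
        exact ⟨ω' + ω, by rw [mon_add ht, mul_assoc]⟩ }

private theorem Grd2_two (ht : ∀ i, t i ≠ 0) (i j : Fin (2 * k + 1))
    (w : Fin (2 * k + 1) → ℤ) :
    mon t (w + Pi.single i 1 + Pi.single j 1) = t i * t j * mon t w := by
  rw [mon_add ht, mon_add ht, mon_single, mon_single]
  ring

private theorem Grd2_ne {D T T' : Matrix (Fin m) (Fin m) ℂ} {α : Fin m → ℂ} (hD : D.det ≠ 0)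
    (ED : Eig D T T' α) (b : Fin m) : α b ≠ 0 := by
  intro h0
  obtain ⟨v, hv, h1⟩ := eig_ev ED b
  rw [h0, zero_smul] at h1
  exact hv (Matrix.eq_zero_of_mulVec_eq_zero hD h1)

private theorem Grd2_inj (ht : Gen1 t) {x y : Fin (2 * k + 1) → ℤ} (he : mon t x = mon t y)
    (l : Fin (2 * k + 1)) :
    ((2 * k + 1 : ℕ) : ℤ) * x l - ∑ i, x i = ((2 * k + 1 : ℕ) : ℤ) * y l - ∑ i, y i := by
  have h1 : mon t (x + -y) = 1 := by
    rw [mon_add ht.1, mon_neg ht.1, he]
    exact mul_inv_cancel₀ (mon_ne ht.1 _)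
  have h2 := ht.2.2 _ h1
  have h3 : ∑ i, (x i - y i) = ((2 * k + 1 : ℕ) : ℤ) * (x l - y l) := by
    have h4 : ∀ i ∈ (Finset.univ : Finset (Fin (2 * k + 1))), x i - y i = x l - y l := fun i _ => by
      have := h2 i l
      simpa [sub_eq_add_neg] using this
    rw [Finset.sum_congr rfl h4, Finset.sum_const, Finset.card_univ, Fintype.card_fin, nsmul_eq_mul]
  rw [Finset.sum_sub_distrib] at h3
  linarith

private theorem Grd2_sum (x : Fin (2 * k + 1) → ℤ) :
    ∑ l, (((2 * k + 1 : ℕ) : ℤ) * x l - ∑ i, x i) = 0 := by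
  rw [Finset.sum_sub_distrib, Finset.sum_const, Finset.card_univ, Fintype.card_fin, nsmul_eq_mul,
    ← Finset.mul_sum, sub_self]

theorem grd2 (h : Pwf (2 * k + 1) m c L M t) (hP : Prim L M) (ht : Gen1 t) :
    ∃ (c' : ℂ) (L' : Matrix (Fin m) (Fin m) ℂ)
      (M' : Matrix (Fin (2 * k + 1)) (Fin (2 * k + 1)) ℂ →ₗ[ℂ] Matrix (Fin m) (Fin m) ℂ)
      (w w' : Fin m → Fin (2 * k + 1) → ℤ),
      Zt (2 * k + 1) m c' L' M' w w' 0 ∧ Prim L' M' ∧
        ∀ σ : Equiv.Perm (Fin (2 * k + 1)), Eqv L' M' (prm σ) := by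
  have ht0 := ht.1
  obtain ⟨D, C, hD, -, hDC⟩ := h.pT
  obtain ⟨h0, h1⟩ := mor_tor.1 hDC
  obtain ⟨S, S', β, EC⟩ := exists_eig C
  obtain ⟨T, T', α, ED⟩ := exists_eig D
  obtain ⟨p₀, hβ, hα⟩ := lab_one h.c0 h.det hP (fun z : ℂ => (Quotient.mk (Grd2_set t ht0) z))
    (z := fun i j => t i * t j) (fun i j z => by
      refine Quotient.sound ?_
      refine (Grd2_set t ht0).iseqv.symm ⟨0 + Pi.single i 1 + Pi.single j 1, ?_⟩
      rw [Grd2_two ht0, mon_zero, mul_one]) h0 h1 EC ED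
  obtain ⟨β₀, rfl⟩ := Quotient.exists_rep p₀
  have hβ' : ∀ a, ∃ ω : Fin (2 * k + 1) → ℤ, β a = mon t ω * β₀ := fun a =>
    (Grd2_set t ht0).iseqv.symm (Quotient.exact (hβ a)) |>.imp fun _ h => h
  have hα' : ∀ b, ∃ ω : Fin (2 * k + 1) → ℤ, α b = mon t ω * β₀ := fun b =>
    (Grd2_set t ht0).iseqv.symm (Quotient.exact (hα b)) |>.imp fun _ h => h
  choose v hv using hβ'
  choose v' hv' using hα'
  have hβ₀ : Fin m → β₀ ≠ 0 := fun b h2 => Grd2_ne hD ED b (by rw [hv', h2, mul_zero])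
  refine ⟨T'.det * c * S.det, T' * L * S, lcg T' S M,
    fun a l => ((2 * k + 1 : ℕ) : ℤ) * v a l - ∑ i, v a i,
    fun b l => ((2 * k + 1 : ℕ) : ℤ) * v' b l - ∑ i, v' b i,
    ⟨?_, fun X => ?_, ?_, ?_, fun a => Grd2_sum (v a), fun b => Grd2_sum (v' b)⟩,
    base_prim EC.inv' ED.inv' hP, fun σ => base_eqv EC.inv' ED.inv' (h.pS σ)⟩
  · refine mul_ne_zero (mul_ne_zero ?_ h.c0) ?_
    · have h2 := congrArg Matrix.det ED.inv
      rw [Matrix.det_mul, Matrix.det_one] at h2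
      exact left_ne_zero_of_mul_eq_one h2
    · have h2 := congrArg Matrix.det EC.inv'
      rw [Matrix.det_mul, Matrix.det_one] at h2
      exact left_ne_zero_of_mul_eq_one h2
  · have e : T' * L * S + lcg T' S M X = T' * (L + M X) * S := by
      change T' * L * S + T' * M X * S = T' * (L + M X) * S
      rw [Matrix.mul_add, Matrix.add_mul]
    rw [e, Matrix.det_mul, Matrix.det_mul, h.det]
    ring
  · intro b a hba
    have h2 : α b = 1 * β a := eig_mor (z := 1) (by rw [one_smul]; exact h0) EC ED b a hba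
    rw [one_mul, hv, hv'] at h2
    funext l
    exact Grd2_inj ht (mul_right_cancel₀ (hβ₀ b) h2) l
  · intro b a i j hba l
    have h2 : α b = t i * t j * β a := eig_mor (h1 i j) EC ED b a hba
    rw [hv, hv', ← mul_assoc, ← Grd2_two ht0] at h2
    have h3 := Grd2_inj ht (mul_right_cancel₀ (hβ₀ b) h2) l
    have h4 : ∑ l', (v a + Pi.single i 1 + Pi.single j 1 : Fin (2 * k + 1) → ℤ) l' =
        ∑ l', v a l' + 2 := by
      simp only [Pi.add_apply, Finset.sum_add_distrib, Finset.sum_pi_single', Finset.mem_univ,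
        if_true]
      ring
    have h5 : (v a + Pi.single i 1 + Pi.single j 1 : Fin (2 * k + 1) → ℤ) l =
        v a l + ((if l = i then 1 else 0) + (if l = j then 1 else 0)) := by
      simp only [Pi.add_apply, Pi.single_apply]
      ring
    rw [h4, h5] at h3
    rw [h3]
    ring

theorem zt_mor {w w' : Fin m → Fin (2 * k + 1) → ℤ} {s₀ : ℤ}
    (hG : Zt (2 * k + 1) m c L M w w' s₀) {s : Fin (2 * k + 1) → ℂ} (hs : ∀ i, s i ≠ 0)
    (hs1 : ∏ i, s i = 1) :
    Mor L M (tor fun i => s i ^ (2 * k + 1)) (Matrix.diagonal fun b => mon s (w' b))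
      (Matrix.diagonal fun a => mon s (w a)) := by
  have hzp : ∀ (i : Fin (2 * k + 1)) (z : ℤ), mon s (Pi.single i z) = s i ^ z := fun i z => by
    unfold mon
    rw [Finset.prod_eq_single i]
    · simp
    · intro j _ hj
      rw [Pi.single_eq_of_ne hj, zpow_zero]
    · intro h
      exact absurd (Finset.mem_univ i) h
  have hc : mon s (fun _ => (-2 : ℤ)) = 1 := by
    unfold mon
    rw [Finset.prod_zpow, hs1, _root_.one_zpow]
  refine mor_tor.2 ⟨?_, fun i j => ?_⟩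
  · ext b a
    rw [Matrix.diagonal_mul, Matrix.mul_diagonal]
    by_cases h0 : L b a = 0
    · rw [h0, mul_zero, zero_mul]
    · rw [hG.gL b a h0, mul_comm]
  · ext b a
    rw [Matrix.diagonal_mul, Matrix.smul_apply, Matrix.mul_diagonal, smul_eq_mul]
    by_cases h0 : M (Matrix.single i j 1) b a = 0
    · rw [h0, mul_zero, zero_mul, mul_zero]
    · have e : w' b = w a + Pi.single i (((2 * k + 1 : ℕ) : ℤ)) +
          Pi.single j (((2 * k + 1 : ℕ) : ℤ)) + fun _ => -2 := by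
        funext l
        rw [hG.gE b a i j h0 l]
        simp only [Pi.add_apply, Pi.single_apply]
        split_ifs <;> ring
      rw [e, mon_add hs, mon_add hs, mon_add hs, hzp, hzp, hc, zpow_natCast, zpow_natCast]
      ring

end PadDet.Eq
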