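import Pool.Agent.H.MP_d7db32_ag.Eq.M.Asm2
import Pool.Agent.H.MP_d7db32_ag.Eq.L.Pt

/-!
# MP_d7db32_ag, Eq/M/Pt2: the bound for groups which contain `SL_n` (compare L/Pt)

`PExpr` is defined in L/Pt. `act (g, 1) X = g X gᵀ`. `tor t = act (diagonal t, 1)` with `∏ t i = 1`. `prm σ = act (± P, 1)` for the permutation matrix `P` of `σ` or its inverse, with
the sign such that the determinant is `1` (`n` odd). For a square `g = h ^ 2`, `det h = 1`, the element `(g, 1)` has the form without transposition. The diagonal matrix with entries `t i ^ 2`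
(`gen1_sq`) is the square of the one with entries `t i`. A swap: let `P` be its matrix (`P ^ 2 = 1`, `det P = -1`), `h = ((1 + i) / 2) 1 + ((1 - i) / 2) P`, `h ^ 2 = P`, so `(i h) ^ 2 = (- i h) ^ 2 = - P` and one of
`i h`, `- i h` has determinant `1`: `det h ^ 2 = -1`, so `(det (± i h)) ^ 2 = i ^ (2 n) * (-1) = 1` (`n` odd), `det (i h) = - det (- i h)`. So `prm` of a swap has the form without transposition; products
(`Equiv.Perm.swap_induction_on`). Then `lowS` with the numbers `t i ^ 2`.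
-/

set_option autoImplicit false

namespace PadDet.Eq

open Matrix MvPolynomial

variable {n : ℕ}

private theorem Pt2_comp {m : ℕ} {L : Matrix (Fin m) (Fin m) ℂ}
    {M : Matrix (Fin n) (Fin n) ℂ →ₗ[ℂ] Matrix (Fin m) (Fin m) ℂ}
    {f g : Matrix (Fin n) (Fin n) ℂ → Matrix (Fin n) (Fin n) ℂ} (hf : Eqv L M f)
    (hg : Eqv L M g) : Eqv L M (fun X => f (g X)) := by
  obtain ⟨A, B, hA, hB, h⟩ := hf
  obtain ⟨A', B', hA', hB', h'⟩ := hg
  refine ⟨A * A', B * B', ?_, ?_, fun X => ?_⟩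
  · rw [Matrix.det_mul]
    exact mul_ne_zero hA hA'
  · rw [Matrix.det_mul]
    exact mul_ne_zero hB hB'
  · rw [Matrix.mul_assoc, h' X, ← Matrix.mul_assoc, h (g X), Matrix.mul_assoc]

private theorem Pt2_act (g : GL (Fin n) ℂ) (X : Matrix (Fin n) (Fin n) ℂ) :
    act (g, 1) X = (g : Matrix (Fin n) (Fin n) ℂ) * X * (g : Matrix (Fin n) (Fin n) ℂ)ᵀ := by
  have e : ((1 / 2 : ℂ) • (X - Xᵀ) + (((1 : ℂˣ) : ℂ) / 2) • (X + Xᵀ)) = X := by
    rw [Units.val_one]
    module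
  unfold act
  simp only [e]

private theorem Pt2_act2 (g : GL (Fin n) ℂ) (X : Matrix (Fin n) (Fin n) ℂ) :
    (g : Matrix (Fin n) (Fin n) ℂ) * (g : Matrix (Fin n) (Fin n) ℂ) * X *
      ((g : Matrix (Fin n) (Fin n) ℂ) * (g : Matrix (Fin n) (Fin n) ℂ))ᵀ =
      act (g, 1) (act (g, 1) X) := by
  rw [Pt2_act, Pt2_act, Matrix.transpose_mul]
  simp only [Matrix.mul_assoc]

private theorem Pt2_det {m : ℕ} {a b : Matrix (Fin m) (Fin m) ℂ} (h : a * b = 1) : a.det ≠ 0 := by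
  intro h0
  have h1 := congrArg Matrix.det h
  rw [Matrix.det_mul, h0, zero_mul, Matrix.det_one] at h1
  exact zero_ne_one h1

private theorem Pt2_sq {m : ℕ} {L : Matrix (Fin m) (Fin m) ℂ}
    {M : Matrix (Fin n) (Fin n) ℂ →ₗ[ℂ] Matrix (Fin m) (Fin m) ℂ} {g : GL (Fin n) ℂ}
    (h : ∃ A B : GL (Fin m) ℂ,
    (∀ X : Matrix (Fin n) (Fin n) ℂ, L + M (act (g, 1) X) =
      (A : Matrix (Fin m) (Fin m) ℂ) * (L + M X) * ((B⁻¹ : GL (Fin m) ℂ) : Matrix (Fin m) (Fin m) ℂ)) ∨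
    (∀ X : Matrix (Fin n) (Fin n) ℂ, L + M (act (g, 1) X) =
      (A : Matrix (Fin m) (Fin m) ℂ) * (L + M X)ᵀ * ((B⁻¹ : GL (Fin m) ℂ) : Matrix (Fin m) (Fin m) ℂ))) :
    Eqv L M (fun X => (g : Matrix (Fin n) (Fin n) ℂ) * (g : Matrix (Fin n) (Fin n) ℂ) * X *
      ((g : Matrix (Fin n) (Fin n) ℂ) * (g : Matrix (Fin n) (Fin n) ℂ))ᵀ) := by
  simp only [Pt2_act2]
  obtain ⟨A, B, h⟩ := h
  have hA : (A : Matrix (Fin m) (Fin m) ℂ) * ((A⁻¹ : GL (Fin m) ℂ) : Matrix (Fin m) (Fin m) ℂ) = 1 := by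
    rw [← Units.val_mul, mul_inv_cancel, Units.val_one]
  have hA' : ((A⁻¹ : GL (Fin m) ℂ) : Matrix (Fin m) (Fin m) ℂ) * (A : Matrix (Fin m) (Fin m) ℂ) = 1 := by
    rw [← Units.val_mul, inv_mul_cancel, Units.val_one]
  have hB : (B : Matrix (Fin m) (Fin m) ℂ) * ((B⁻¹ : GL (Fin m) ℂ) : Matrix (Fin m) (Fin m) ℂ) = 1 := by
    rw [← Units.val_mul, mul_inv_cancel, Units.val_one]
  have hB' : ((B⁻¹ : GL (Fin m) ℂ) : Matrix (Fin m) (Fin m) ℂ) * (B : Matrix (Fin m) (Fin m) ℂ) = 1 := by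
    rw [← Units.val_mul, inv_mul_cancel, Units.val_one]
  generalize (A : Matrix (Fin m) (Fin m) ℂ) = a at h hA hA'
  generalize ((A⁻¹ : GL (Fin m) ℂ) : Matrix (Fin m) (Fin m) ℂ) = a' at hA hA'
  generalize (B : Matrix (Fin m) (Fin m) ℂ) = b at hB hB'
  generalize ((B⁻¹ : GL (Fin m) ℂ) : Matrix (Fin m) (Fin m) ℂ) = b' at h hB hB'
  rcases h with h | h
  · refine ⟨a * a, b * b, ?_, ?_, fun X => ?_⟩
    · rw [Matrix.det_mul]
      exact mul_ne_zero (Pt2_det hA) (Pt2_det hA)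
    · rw [Matrix.det_mul]
      exact mul_ne_zero (Pt2_det hB) (Pt2_det hB)
    · rw [h, h]
      have e : a * (a * (L + M X) * b') * b' * (b * b) =
          a * a * (L + M X) * (b' * ((b' * b) * b)) := by
        simp only [Matrix.mul_assoc]
      rw [e, hB', Matrix.one_mul, hB', Matrix.mul_one]
  · refine ⟨a * b'ᵀ, b * a'ᵀ, ?_, ?_, fun X => ?_⟩
    · rw [Matrix.det_mul, Matrix.det_transpose]
      exact mul_ne_zero (Pt2_det hA) (Pt2_det hB')
    · rw [Matrix.det_mul, Matrix.det_transpose]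
      exact mul_ne_zero (Pt2_det hB) (Pt2_det hA')
    · rw [h, h, Matrix.transpose_mul, Matrix.transpose_mul, Matrix.transpose_transpose]
      have e : a * (b'ᵀ * ((L + M X) * aᵀ)) * b' * (b * a'ᵀ) =
          a * b'ᵀ * (L + M X) * (aᵀ * ((b' * b) * a'ᵀ)) := by
        simp only [Matrix.mul_assoc]
      rw [e, hB', Matrix.one_mul, ← Matrix.transpose_mul, hA', Matrix.transpose_one,
        Matrix.mul_one]

private theorem Pt2_prm (σ : Equiv.Perm (Fin n)) (X : Matrix (Fin n) (Fin n) ℂ) :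
    σ.permMatrix ℂ * X * (σ.permMatrix ℂ)ᵀ = prm σ X := by
  rw [Matrix.transpose_permMatrix, PEquiv.toMatrix_toPEquiv_mul, PEquiv.mul_toMatrix_toPEquiv]
  rfl

private theorem Pt2_swap (k : ℕ) {x y : Fin (2 * k + 1)} (hxy : x ≠ y) :
    ∃ g : GL (Fin (2 * k + 1)) ℂ, (g : Matrix (Fin (2 * k + 1)) (Fin (2 * k + 1)) ℂ).det = 1 ∧
      (g : Matrix (Fin (2 * k + 1)) (Fin (2 * k + 1)) ℂ) *
        (g : Matrix (Fin (2 * k + 1)) (Fin (2 * k + 1)) ℂ) =
        -(Equiv.swap x y).permMatrix ℂ := by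
  have hP : (Equiv.swap x y).permMatrix ℂ * (Equiv.swap x y).permMatrix ℂ = 1 := by
    rw [← Matrix.permMatrix_mul, Equiv.swap_mul_self, Matrix.permMatrix_one]
  have hPd : ((Equiv.swap x y).permMatrix ℂ).det = -1 := by
    rw [Matrix.det_permutation, Equiv.Perm.sign_swap hxy]
    norm_num
  generalize (Equiv.swap x y).permMatrix ℂ = P at hP hPd
  obtain ⟨S, hS⟩ : ∃ S : Matrix (Fin (2 * k + 1)) (Fin (2 * k + 1)) ℂ,
      S = ((1 + Complex.I) / 2) • (1 : Matrix (Fin (2 * k + 1)) (Fin (2 * k + 1)) ℂ) +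
        ((1 - Complex.I) / 2) • P :=
    ⟨_, rfl⟩
  have hSS : S * S = P := by
    rw [hS]
    simp only [Matrix.add_mul, Matrix.mul_add, Matrix.smul_mul, Matrix.mul_smul, Matrix.one_mul,
      Matrix.mul_one, hP]
    have e1 : (1 + Complex.I) / 2 * ((1 + Complex.I) / 2) +
        (1 - Complex.I) / 2 * ((1 - Complex.I) / 2) = 0 := by
      linear_combination Complex.I_mul_I / 2
    have e2 : (1 + Complex.I) / 2 * ((1 - Complex.I) / 2) +
        (1 - Complex.I) / 2 * ((1 + Complex.I) / 2) = 1 := by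
      linear_combination -Complex.I_mul_I / 2
    linear_combination (norm := module)
      e1 • (1 : Matrix (Fin (2 * k + 1)) (Fin (2 * k + 1)) ℂ) + e2 • P
  have key : ∀ z : ℂ, z * z = -1 → z ^ (2 * k + 1) * S.det = 1 →
      ∃ g : GL (Fin (2 * k + 1)) ℂ,
        (g : Matrix (Fin (2 * k + 1)) (Fin (2 * k + 1)) ℂ).det = 1 ∧
        (g : Matrix (Fin (2 * k + 1)) (Fin (2 * k + 1)) ℂ) *
          (g : Matrix (Fin (2 * k + 1)) (Fin (2 * k + 1)) ℂ) = -P := by
    intro z hz hd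
    have h1 : (z • S).det = 1 := by
      rw [Matrix.det_smul, Fintype.card_fin, hd]
    have h2 : (z • S) * (z • S) = -P := by
      rw [Matrix.smul_mul, Matrix.mul_smul, smul_smul, hz, hSS, neg_one_smul]
    refine ⟨Matrix.GeneralLinearGroup.mkOfDetNeZero (z • S) (by rw [h1]; exact one_ne_zero), ?_, ?_⟩
    · exact h1
    · exact h2
  have hd2 : S.det * S.det = -1 := by
    rw [← Matrix.det_mul, hSS, hPd]
  have hI : Complex.I * Complex.I = -1 := Complex.I_mul_I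
  have hI2 : Complex.I ^ (2 * k + 1) * Complex.I ^ (2 * k + 1) = -1 := by
    rw [← mul_pow, hI, Odd.neg_one_pow ⟨k, rfl⟩]
  have h3 : (Complex.I ^ (2 * k + 1) * S.det) * (Complex.I ^ (2 * k + 1) * S.det) = 1 := by
    have e : (Complex.I ^ (2 * k + 1) * S.det) * (Complex.I ^ (2 * k + 1) * S.det) =
        (Complex.I ^ (2 * k + 1) * Complex.I ^ (2 * k + 1)) * (S.det * S.det) := by
      ring
    rw [e, hI2, hd2]
    norm_num
  rcases mul_self_eq_one_iff.1 h3 with h4 | h4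
  · exact key Complex.I hI h4
  · refine key (-Complex.I) (by rw [neg_mul_neg]; exact hI) ?_
    rw [Odd.neg_pow ⟨k, rfl⟩, neg_mul, h4, neg_neg]

theorem low_sl (k m : ℕ) (H : Subgroup (GL (Fin (2 * k + 1)) ℂ × ℂˣ))
    (hH : ∀ g : GL (Fin (2 * k + 1)) ℂ, (g : Matrix (Fin (2 * k + 1)) (Fin (2 * k + 1)) ℂ).det = 1 →
      (g, 1) ∈ H)
    (L : Matrix (Fin m) (Fin m) ℂ)
    (M : Matrix (Fin (2 * k + 1)) (Fin (2 * k + 1)) ℂ →ₗ[ℂ] Matrix (Fin m) (Fin m) ℂ)
    (hE : PExpr m (skewForm (2 * k + 1)) H L M) : 2 ^ (2 * k + 1) - 1 ≤ m := by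
  obtain ⟨t, ht⟩ := exists_gen1 k
  refine lowS (c := 1) (L := L) (M := M) (t := fun i => t i ^ 2)
    ⟨one_ne_zero, fun X => ?_, fun i => pow_ne_zero 2 (ht.1 i), ?_, fun σ => ?_⟩ (gen1_sq ht)
  · rw [hE.det X, eval_skew, one_mul]
  · let g : GL (Fin (2 * k + 1)) ℂ :=
      { val := Matrix.diagonal t
        inv := Matrix.diagonal fun i => (t i)⁻¹
        val_inv := by
          rw [Matrix.diagonal_mul_diagonal, ← Matrix.diagonal_one]
          congr 1
          funext i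
          exact mul_inv_cancel₀ (ht.1 i)
        inv_val := by
          rw [Matrix.diagonal_mul_diagonal, ← Matrix.diagonal_one]
          congr 1
          funext i
          exact inv_mul_cancel₀ (ht.1 i) }
    have hg : (g : Matrix (Fin (2 * k + 1)) (Fin (2 * k + 1)) ℂ).det = 1 := by
      show (Matrix.diagonal t).det = 1
      rw [Matrix.det_diagonal, ht.2.1]
    have h2 := Pt2_sq (hE.eqv (g, 1) (hH g hg))
    have h3 : (fun X : Matrix (Fin (2 * k + 1)) (Fin (2 * k + 1)) ℂ =>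
        (g : Matrix (Fin (2 * k + 1)) (Fin (2 * k + 1)) ℂ) *
        (g : Matrix (Fin (2 * k + 1)) (Fin (2 * k + 1)) ℂ) * X *
      ((g : Matrix (Fin (2 * k + 1)) (Fin (2 * k + 1)) ℂ) *
        (g : Matrix (Fin (2 * k + 1)) (Fin (2 * k + 1)) ℂ))ᵀ) = tor fun i => t i ^ 2 := by
      funext X
      show Matrix.diagonal t * Matrix.diagonal t * X *
        (Matrix.diagonal t * Matrix.diagonal t)ᵀ = tor (fun i => t i ^ 2) X
      rw [Matrix.diagonal_mul_diagonal, Matrix.diagonal_transpose]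
      ext i j
      rw [Matrix.mul_diagonal, Matrix.diagonal_mul]
      unfold tor
      rw [Matrix.of_apply]
      ring
    rw [h3] at h2
    exact h2
  · have h1 : Eqv L M (prm (1 : Equiv.Perm (Fin (2 * k + 1)))) := by
      refine ⟨1, 1, ?_, ?_, fun X => ?_⟩
      · rw [Matrix.det_one]
        exact one_ne_zero
      · rw [Matrix.det_one]
        exact one_ne_zero
      · rw [Matrix.one_mul, Matrix.mul_one]
        rfl
    have hsw : ∀ x y : Fin (2 * k + 1), x ≠ y → Eqv L M (prm (Equiv.swap x y)) := by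
      intro x y hxy
      obtain ⟨g, hg1, hg⟩ := Pt2_swap k hxy
      have h2 := Pt2_sq (hE.eqv (g, 1) (hH g hg1))
      rw [hg] at h2
      simp only [Matrix.transpose_neg, Matrix.neg_mul, Matrix.mul_neg, neg_neg, Pt2_prm] at h2
      exact h2
    induction σ using Equiv.Perm.swap_induction_on with
    | one => exact h1
    | swap_mul f x y hxy ih =>
      have h := Pt2_comp ih (hsw x y hxy)
      exact h

end PadDet.Eq
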